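import Mathlib

/-!
# MP_1fca17_co : the cells of a square grid which meet a connected set

Closed cells of side `δ` in the plane `ℝ × ℝ` (helper20).
-/

namespace Pool.Agent.Lib.MP_1fca17_co.T

open Set

/-- the closed cell with the index `q` -/
def cell (δ : ℝ) (q : ℤ × ℤ) : Set (ℝ × ℝ) :=
  {p | (q.1 : ℝ) * δ ≤ p.1 ∧ p.1 ≤ (q.1 + 1) * δ ∧ (q.2 : ℝ) * δ ≤ p.2 ∧ p.2 ≤ (q.2 + 1) * δ}

/-- the indices of the cells which meet `A` -/
def cells (δ : ℝ) (A : Set (ℝ × ℝ)) : Set (ℤ × ℤ) := {q | (cell δ q ∩ A).Nonempty}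

/-- two cells have a common side -/
def SideAdj (q q' : ℤ × ℤ) : Prop :=
  (q.2 = q'.2 ∧ (q'.1 = q.1 + 1 ∨ q.1 = q'.1 + 1)) ∨
    (q.1 = q'.1 ∧ (q'.2 = q.2 + 1 ∨ q.2 = q'.2 + 1))

theorem SideAdj.symm {q q' : ℤ × ℤ} (h : SideAdj q q') : SideAdj q' q := by
  unfold SideAdj at *
  omega

theorem isClosed_cell (δ : ℝ) (q : ℤ × ℤ) : IsClosed (cell δ q) := by
  have h1 : IsClosed {p : ℝ × ℝ | (q.1 : ℝ) * δ ≤ p.1} := isClosed_le continuous_const continuous_fst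
  have h2 : IsClosed {p : ℝ × ℝ | p.1 ≤ ((q.1 : ℝ) + 1) * δ} :=
    isClosed_le continuous_fst continuous_const
  have h3 : IsClosed {p : ℝ × ℝ | (q.2 : ℝ) * δ ≤ p.2} := isClosed_le continuous_const continuous_snd
  have h4 : IsClosed {p : ℝ × ℝ | p.2 ≤ ((q.2 : ℝ) + 1) * δ} :=
    isClosed_le continuous_snd continuous_const
  exact h1.inter (h2.inter (h3.inter h4))

/-- every point lies in a cell -/
theorem exists_cell {δ : ℝ} (hδ : 0 < δ) (p : ℝ × ℝ) : ∃ q, p ∈ cell δ q := by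
  refine ⟨(⌊p.1 / δ⌋, ⌊p.2 / δ⌋), ?_, ?_, ?_, ?_⟩
  · have := Int.floor_le (p.1 / δ)
    rwa [le_div_iff₀ hδ] at this
  · have := (Int.lt_floor_add_one (p.1 / δ)).le
    rwa [div_le_iff₀ hδ] at this
  · have := Int.floor_le (p.2 / δ)
    rwa [le_div_iff₀ hδ] at this
  · have := (Int.lt_floor_add_one (p.2 / δ)).le
    rwa [div_le_iff₀ hδ] at this

theorem subset_cells {δ : ℝ} {A : Set (ℝ × ℝ)} {p : ℝ × ℝ} {q : ℤ × ℤ} (hp : p ∈ A)
    (hq : p ∈ cell δ q) : q ∈ cells δ A := ⟨p, hq, hp⟩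

theorem cells_mono {δ : ℝ} {A B : Set (ℝ × ℝ)} (h : A ⊆ B) : cells δ A ⊆ cells δ B :=
  fun _ ⟨p, hp, hA⟩ => ⟨p, hp, h hA⟩

/-- indices of intervals which contain a common point differ by at most one -/
theorem idx_close {δ : ℝ} (hδ : 0 < δ) {x : ℝ} {i j : ℤ} (h1 : (i : ℝ) * δ ≤ x)
    (h2 : x ≤ (j + 1) * δ) : i ≤ j + 1 := by
  have h : (i : ℝ) * δ ≤ (j + 1) * δ := h1.trans h2
  have h' : (i : ℝ) ≤ (j : ℝ) + 1 := le_of_mul_le_mul_right h hδ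
  exact_mod_cast h'

/-- the indices of the cells of a set in a square are bounded -/
theorem cells_bound {δ : ℝ} (hδ : 0 < δ) {A : Set (ℝ × ℝ)} {L : ℕ}
    (hA : ∀ p ∈ A, |p.1| ≤ L * δ ∧ |p.2| ≤ L * δ) {q : ℤ × ℤ} (hq : q ∈ cells δ A) :
    -(L : ℤ) - 1 ≤ q.1 ∧ q.1 ≤ L ∧ -(L : ℤ) - 1 ≤ q.2 ∧ q.2 ≤ L := by
  obtain ⟨p, ⟨h1, h2, h3, h4⟩, hp⟩ := hq
  obtain ⟨h5, h6⟩ := hA p hp
  rw [abs_le] at h5 h6
  have key : ∀ (i : ℤ) (x : ℝ), (i : ℝ) * δ ≤ x → x ≤ (i + 1) * δ → -((L : ℝ) * δ) ≤ x →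
      x ≤ L * δ → -(L : ℤ) - 1 ≤ i ∧ i ≤ L := by
    intro i x a1 a2 a3 a4
    constructor
    · have h : -(L : ℝ) * δ ≤ (i + 1) * δ := by linarith
      have h' : -(L : ℝ) ≤ (i : ℝ) + 1 := le_of_mul_le_mul_right h hδ
      have h'' : -(L : ℤ) ≤ i + 1 := by exact_mod_cast h'
      omega
    · have h : (i : ℝ) * δ ≤ L * δ := by linarith
      have h' : (i : ℝ) ≤ (L : ℝ) := le_of_mul_le_mul_right h hδ
      exact_mod_cast h'
  obtain ⟨k1, k2⟩ := key q.1 p.1 h1 h2 h5.1 h5.2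
  obtain ⟨k3, k4⟩ := key q.2 p.2 h3 h4 h6.1 h6.2
  exact ⟨k1, k2, k3, k4⟩

theorem finite_cells {δ : ℝ} (hδ : 0 < δ) {A : Set (ℝ × ℝ)} (hA : Bornology.IsBounded A) :
    (cells δ A).Finite := by
  obtain ⟨r, hr⟩ := hA.subset_closedBall (0 : ℝ × ℝ)
  obtain ⟨L, hL⟩ := exists_nat_ge (r / δ)
  have hL' : r ≤ L * δ := by rwa [div_le_iff₀ hδ] at hL
  refine Set.Finite.subset (Set.finite_Icc ((-(L : ℤ) - 1, -(L : ℤ) - 1) : ℤ × ℤ)
    ((L : ℤ), (L : ℤ))) ?_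
  intro q hq
  have hb := cells_bound hδ (L := L) (A := A) (fun p hp => ?_) hq
  · exact ⟨⟨hb.1, hb.2.2.1⟩, ⟨hb.2.1, hb.2.2.2⟩⟩
  · have h := hr hp
    rw [mem_closedBall_zero_iff, Prod.norm_def] at h
    exact ⟨(le_max_left _ _).trans (h.trans hL'), (le_max_right _ _).trans (h.trans hL')⟩

/-- two cells which contain a common point of `A` are connected inside `cells δ A` -/
theorem conn_of_mem {δ : ℝ} (hδ : 0 < δ) {A : Set (ℝ × ℝ)} {p : ℝ × ℝ} (hp : p ∈ A)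
    {q q' : ℤ × ℤ} (hq : p ∈ cell δ q) (hq' : p ∈ cell δ q') :
    Relation.ReflTransGen (fun a b => a ∈ cells δ A ∧ b ∈ cells δ A ∧ SideAdj a b) q q' := by
  have hmid : p ∈ cell δ (q'.1, q.2) := ⟨hq'.1, hq'.2.1, hq.2.2.1, hq.2.2.2⟩
  have h1 : q.1 ≤ q'.1 + 1 := idx_close hδ hq.1 hq'.2.1
  have h2 : q'.1 ≤ q.1 + 1 := idx_close hδ hq'.1 hq.2.1
  have h3 : q.2 ≤ q'.2 + 1 := idx_close hδ hq.2.2.1 hq'.2.2.2
  have h4 : q'.2 ≤ q.2 + 1 := idx_close hδ hq'.2.2.1 hq.2.2.2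
  have s1 : Relation.ReflTransGen (fun a b => a ∈ cells δ A ∧ b ∈ cells δ A ∧ SideAdj a b) q
      (q'.1, q.2) := by
    by_cases h : q.1 = q'.1
    · rw [← h]
    · exact Relation.ReflTransGen.single ⟨subset_cells hp hq, subset_cells hp hmid,
        Or.inl ⟨rfl, by simp only; omega⟩⟩
  have s2 : Relation.ReflTransGen (fun a b => a ∈ cells δ A ∧ b ∈ cells δ A ∧ SideAdj a b)
      (q'.1, q.2) q' := by
    by_cases h : q.2 = q'.2
    · rw [h]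
    · exact Relation.ReflTransGen.single ⟨subset_cells hp hmid, subset_cells hp hq',
        Or.inr ⟨rfl, by simp only; omega⟩⟩
  exact s1.trans s2

/-- CELLS: the cells which meet a connected bounded set are connected by common sides -/
theorem cells_connected {δ : ℝ} (hδ : 0 < δ) {A : Set (ℝ × ℝ)} (hA : IsPreconnected A)
    (hb : Bornology.IsBounded A) {q q' : ℤ × ℤ} (hq : q ∈ cells δ A) (hq' : q' ∈ cells δ A) :
    Relation.ReflTransGen (fun a b => a ∈ cells δ A ∧ b ∈ cells δ A ∧ SideAdj a b) q q' := by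
  classical
  by_contra hno
  set R : Set (ℤ × ℤ) := {a | a ∈ cells δ A ∧
    Relation.ReflTransGen (fun a b => a ∈ cells δ A ∧ b ∈ cells δ A ∧ SideAdj a b) q a} with hR
  have hfin := finite_cells hδ hb
  have hRf : R.Finite := hfin.subset (fun a ha => ha.1)
  have hR'f : (cells δ A \ R).Finite := hfin.subset (fun a ha => ha.1)
  have hcl : IsClosed (⋃ a ∈ R, cell δ a) := hRf.isClosed_biUnion fun a _ => isClosed_cell δ a
  have hcl' : IsClosed (⋃ a ∈ cells δ A \ R, cell δ a) :=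
    hR'f.isClosed_biUnion fun a _ => isClosed_cell δ a
  have hcov : A ⊆ (⋃ a ∈ R, cell δ a) ∪ ⋃ a ∈ cells δ A \ R, cell δ a := by
    intro p hp
    obtain ⟨a, ha⟩ := exists_cell hδ p
    by_cases h : a ∈ R
    · exact Or.inl (mem_biUnion h ha)
    · exact Or.inr (mem_biUnion (show a ∈ cells δ A \ R from ⟨subset_cells hp ha, h⟩) ha)
  have hne : (A ∩ ⋃ a ∈ R, cell δ a).Nonempty := by
    obtain ⟨p, hp, hpA⟩ := hq
    exact ⟨p, hpA, mem_biUnion (show q ∈ R from ⟨⟨p, hp, hpA⟩, Relation.ReflTransGen.refl⟩) hp⟩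
  have hne' : (A ∩ ⋃ a ∈ cells δ A \ R, cell δ a).Nonempty := by
    obtain ⟨p, hp, hpA⟩ := hq'
    exact ⟨p, hpA, mem_biUnion (show q' ∈ cells δ A \ R from ⟨⟨p, hp, hpA⟩,
      fun h => hno h.2⟩) hp⟩
  obtain ⟨p, hpA, hp1, hp2⟩ := (isPreconnected_closed_iff.mp hA) _ _ hcl hcl' hcov hne hne'
  simp only [mem_iUnion, exists_prop] at hp1 hp2
  obtain ⟨a, haR, ha⟩ := hp1
  obtain ⟨b, hbR, hb'⟩ := hp2
  exact hbR.2 ⟨hbR.1, haR.2.trans (conn_of_mem hδ hpA ha hb')⟩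

/-- sets with distance more than `δ` have no common cell (sup metric) -/
theorem disjoint_cells {δ : ℝ} {A B : Set (ℝ × ℝ)} (h : ∀ a ∈ A, ∀ b ∈ B, δ < dist a b) :
    Disjoint (cells δ A) (cells δ B) := by
  rw [Set.disjoint_left]
  rintro q ⟨a, ⟨a1, a2, a3, a4⟩, ha⟩ ⟨b, ⟨b1, b2, b3, b4⟩, hb⟩
  have hd := h a ha b hb
  rw [Prod.dist_eq, Real.dist_eq, Real.dist_eq] at hd
  have h1 : |a.1 - b.1| ≤ δ := by
    rw [abs_le]
    constructor <;> nlinarith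
  have h2 : |a.2 - b.2| ≤ δ := by
    rw [abs_le]
    constructor <;> nlinarith
  exact absurd hd (not_lt.mpr (max_le h1 h2))

/-- finitely many disjoint compact sets are separated -/
theorem exists_sep {ι : Type*} [Finite ι] (A : ι → Set (ℝ × ℝ)) (hA : ∀ i, IsCompact (A i)) :
    ∃ δ > 0, ∀ i j, Disjoint (A i) (A j) → ∀ a ∈ A i, ∀ b ∈ A j, δ < dist a b := by
  have hpair : ∀ p : ι × ι, ∃ δ > (0 : ℝ), Disjoint (A p.1) (A p.2) →
      ∀ a ∈ A p.1, ∀ b ∈ A p.2, δ < dist a b := by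
    rintro ⟨i, j⟩
    by_cases hd : Disjoint (A i) (A j)
    · obtain ⟨r, hr, h⟩ := hd.exists_thickenings (hA i) (hA j).isClosed
      refine ⟨r / 2, by positivity, fun _ a ha b hb => ?_⟩
      by_contra hle
      rw [not_lt] at hle
      rw [Set.disjoint_left] at h
      refine h (Metric.self_subset_thickening hr _ ha) ?_
      rw [Metric.mem_thickening_iff]
      exact ⟨b, hb, by linarith⟩
    · exact ⟨1, one_pos, fun h => absurd h hd⟩
  choose f hf hf' using hpair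
  obtain ⟨δ, hδ, hmin⟩ : ∃ δ > (0 : ℝ), ∀ p, δ ≤ f p := by
    have := Fintype.ofFinite (ι × ι)
    classical
    by_cases hn : Nonempty (ι × ι)
    · obtain ⟨p0, -, hp0⟩ := Finset.exists_min_image (Finset.univ : Finset (ι × ι)) f
        Finset.univ_nonempty
      exact ⟨f p0, hf p0, fun p => hp0 p (Finset.mem_univ p)⟩
    · exact ⟨1, one_pos, fun p => absurd ⟨p⟩ hn⟩
  exact ⟨δ, hδ, fun i j hd a ha b hb => (hmin (i, j)).trans_lt (hf' (i, j) hd a ha b hb)⟩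

end Pool.Agent.Lib.MP_1fca17_co.T
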