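import Mathlib
import Pool.Agent.Lib.MP_1fca17_co.Q.Defs
import Pool.Agent.Lib.MP_1fca17_co.T.Cells20

/-!
# MP_1fca17_co : a plane graph drawn with arcs is contained in a plane map (helper20)

Finitely many points in the plane and finitely many arcs between them, which have only their ends
in common. Small pieces of the arcs at the points and the middle pieces of the arcs are replaced by
sets of cells of a fine square grid, the grid is a plane map, and connected sets of vertices of a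
plane map can be contracted.
-/

namespace Pool.Agent.Lib.MP_1fca17_co.T

open Set
open scoped Classical
open Pool.Agent.Lib.MP_1fca17_co.Q (PlaneMap)

/-- GRID: the square grid on a cylinder is a plane map -/
def StGrid : Prop := ∀ (n m : ℕ) [NeZero n], 3 ≤ n → ∃ (D : Type) (_ : Fintype D)
  (M : PlaneMap (ZMod n × Fin (m + 1)) D), (∀ i j, M.Adj (i, j) (i + 1, j)) ∧
  ∀ (i : ZMod n) (j : ℕ) (h : j + 1 < m + 1), M.Adj (i, ⟨j, by omega⟩) (i, ⟨j + 1, h⟩)

/-- MINOR: connected sets of vertices can be contracted -/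
def StMinor : Prop := ∀ (X Y D : Type) [Fintype X] [Fintype Y] [Fintype D] (M : PlaneMap X D)
  (f : X → Y), Function.Surjective f →
  (∀ x y, f x = f y → Relation.ReflTransGen (fun a b => f a = f x ∧ f b = f x ∧ M.Adj a b) x y) →
  ∃ M' : PlaneMap Y D, (∀ d, M'.vert d = f (M.vert d)) ∧ ∀ d, M'.α d = M.α d

/-- ARCS: arcs with disjoint interiors between finitely many points of the plane -/
def StArcs : Prop := ∀ (X L : Type) [Finite X] [Finite L] (p : X → ℝ × ℝ) (src tgt : L → X)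
  (c : L → ℝ → ℝ × ℝ), Function.Injective p → (∀ l, src l ≠ tgt l) →
  (∀ l, ContinuousOn (c l) (Icc 0 1)) → (∀ l, c l 0 = p (src l)) → (∀ l, c l 1 = p (tgt l)) →
  (∀ l x, ∀ t ∈ Ioo (0 : ℝ) 1, c l t ≠ p x) →
  (∀ l l', ∀ s ∈ Ioo (0 : ℝ) 1, ∀ t ∈ Ioo (0 : ℝ) 1, c l s = c l' t → l = l' ∧ s = t) →
  ∃ (Y D : Type) (_ : Fintype Y) (_ : Fintype D) (M : PlaneMap Y D) (ι : X → Y),
    Function.Injective ι ∧ ∀ l, M.Adj (ι (src l)) (ι (tgt l))

namespace RArcs

/-! ### The combinatorial part -/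

section Comb

variable {C X L : Type*} {adj : C → C → Prop}

/-- connected inside `S` -/
def Con (adj : C → C → Prop) (S : Set C) : Prop :=
  ∀ u ∈ S, ∀ v ∈ S, Relation.ReflTransGen (fun u v => u ∈ S ∧ v ∈ S ∧ adj u v) u v

theorem rtg_symm (hs : ∀ u v, adj u v → adj v u) {S : Set C} {u v : C}
    (h : Relation.ReflTransGen (fun u v => u ∈ S ∧ v ∈ S ∧ adj u v) u v) :
    Relation.ReflTransGen (fun u v => u ∈ S ∧ v ∈ S ∧ adj u v) v u := by
  induction h with
  | refl => exact Relation.ReflTransGen.refl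
  | tail _ h2 ih => exact Relation.ReflTransGen.head ⟨h2.2.1, h2.1, hs _ _ h2.2.2⟩ ih

theorem rtg_mono {S T : Set C} (hST : S ⊆ T) {u v : C}
    (h : Relation.ReflTransGen (fun u v => u ∈ S ∧ v ∈ S ∧ adj u v) u v) :
    Relation.ReflTransGen (fun u v => u ∈ T ∧ v ∈ T ∧ adj u v) u v := by
  induction h with
  | refl => exact Relation.ReflTransGen.refl
  | tail _ h2 ih => exact ih.tail ⟨hST h2.1, hST h2.2.1, h2.2.2⟩

theorem comb (hs : ∀ u v, adj u v → adj v u) (src tgt : L → X) (hst : ∀ l, src l ≠ tgt l)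
    (a : X → Set C) (m : L → Set C) (_hne : ∀ x, (a x).Nonempty) (hca : ∀ x, Con adj (a x))
    (hcm : ∀ l, Con adj (m l)) (haa : ∀ x y, x ≠ y → Disjoint (a x) (a y))
    (hmm : ∀ l l', l ≠ l' → Disjoint (m l) (m l'))
    (hma : ∀ l z, z ≠ src l → z ≠ tgt l → Disjoint (m l) (a z))
    (q0 q1 : L → C) (hq0 : ∀ l, q0 l ∈ m l ∧ q0 l ∈ a (src l))
    (hq1 : ∀ l, q1 l ∈ m l ∧ q1 l ∈ a (tgt l)) :
    ∃ B : X → Set C, (∀ x, a x ⊆ B x) ∧ (∀ x, B x ⊆ a x ∪ ⋃ l, m l) ∧
      (∀ x y, x ≠ y → Disjoint (B x) (B y)) ∧ (∀ x, Con adj (B x)) ∧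
      ∀ l, ∃ r ∈ B (src l), ∃ r' ∈ B (tgt l), adj r r' := by
  let K : L → Set C := fun l => {r | Relation.ReflTransGen
    (fun u v => u ∈ m l \ a (tgt l) ∧ v ∈ m l \ a (tgt l) ∧ adj u v) (q0 l) r}
  have hq0K : ∀ l, q0 l ∈ K l := fun l => Relation.ReflTransGen.refl
  have hq0m : ∀ l, q0 l ∈ m l \ a (tgt l) := fun l =>
    ⟨(hq0 l).1, fun h => Set.disjoint_left.mp (haa _ _ (hst l)) (hq0 l).2 h⟩
  have hK : ∀ l, K l ⊆ m l \ a (tgt l) := by
    intro l r hr
    have hr' : Relation.ReflTransGen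
      (fun u v => u ∈ m l \ a (tgt l) ∧ v ∈ m l \ a (tgt l) ∧ adj u v) (q0 l) r := hr
    rcases Relation.ReflTransGen.cases_tail hr' with h | ⟨b, -, hb⟩
    · rw [h]
      exact hq0m l
    · exact hb.2.1
  have hKstep : ∀ l u v, u ∈ K l → v ∈ m l \ a (tgt l) → adj u v → v ∈ K l := by
    intro l u v hu hv huv
    exact Relation.ReflTransGen.tail hu ⟨hK l hu, hv, huv⟩
  let B : X → Set C := fun x => a x ∪ {r | ∃ l, src l = x ∧ r ∈ K l}
  have haB : ∀ x, a x ⊆ B x := fun x => Set.subset_union_left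
  refine ⟨B, haB, ?_, ?_, ?_, ?_⟩
  · rintro x r (hr | ⟨l, -, hr⟩)
    · exact Or.inl hr
    · exact Or.inr (mem_iUnion.mpr ⟨l, (hK l hr).1⟩)
  · intro x y hxy
    rw [Set.disjoint_left]
    rintro r (h1 | ⟨l, hl, h1⟩) (h2 | ⟨l', hl', h2⟩)
    · exact Set.disjoint_left.mp (haa _ _ hxy) h1 h2
    · have hm := hK l' h2
      by_cases hx : x = tgt l'
      · exact hm.2 (hx ▸ h1)
      · exact Set.disjoint_left.mp (hma l' x (fun h => hxy (h.trans hl')) hx) hm.1 h1
    · have hm := hK l h1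
      by_cases hy : y = tgt l
      · exact hm.2 (hy ▸ h2)
      · exact Set.disjoint_left.mp (hma l y (fun h => hxy ((h.trans hl).symm)) hy) hm.1 h2
    · have hne' : l ≠ l' := by
        rintro rfl
        exact hxy (hl.symm.trans hl')
      exact Set.disjoint_left.mp (hmm _ _ hne') (hK l h1).1 (hK l' h2).1
  · intro x
    have hbase : ∀ r ∈ B x, ∃ q ∈ a x,
        Relation.ReflTransGen (fun u v => u ∈ B x ∧ v ∈ B x ∧ adj u v) q r := by
      rintro r (h | ⟨l, hl, h⟩)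
      · exact ⟨r, h, Relation.ReflTransGen.refl⟩
      · refine ⟨q0 l, hl ▸ (hq0 l).2, ?_⟩
        have hgen : ∀ r, Relation.ReflTransGen
            (fun u v => u ∈ m l \ a (tgt l) ∧ v ∈ m l \ a (tgt l) ∧ adj u v) (q0 l) r →
            Relation.ReflTransGen (fun u v => u ∈ B x ∧ v ∈ B x ∧ adj u v) (q0 l) r := by
          intro r hr
          induction hr with
          | refl => exact Relation.ReflTransGen.refl
          | tail h1 h2 ih =>
            exact ih.tail ⟨Or.inr ⟨l, hl, h1⟩, Or.inr ⟨l, hl, h1.tail h2⟩, h2.2.2⟩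
        exact hgen r h
    intro u hu v hv
    obtain ⟨q, hq, h1⟩ := hbase u hu
    obtain ⟨q', hq', h2⟩ := hbase v hv
    exact (rtg_symm hs h1).trans ((rtg_mono (haB x) (hca x q hq q' hq')).trans h2)
  · intro l
    by_contra hno
    push Not at hno
    have hgen : ∀ r, Relation.ReflTransGen (fun u v => u ∈ m l ∧ v ∈ m l ∧ adj u v) (q0 l) r →
        r ∈ K l := by
      intro r hr
      induction hr with
      | refl => exact hq0K l
      | @tail b c' h1 h2 ih =>
        have hc' : c' ∉ a (tgt l) := fun h =>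
          hno b (Or.inr ⟨l, rfl, ih⟩) c' (haB _ h) h2.2.2
        exact hKstep l b c' ih ⟨h2.2.1, hc'⟩ h2.2.2
    exact (hK l (hgen _ (hcm l _ (hq0 l).1 _ (hq1 l).1))).2 (hq1 l).2

end Comb

/-! ### The pieces of the arcs -/

section Pieces

variable {X L : Type} (p : X → ℝ × ℝ) (src tgt : L → X) (c : L → ℝ → ℝ × ℝ)

/-- the pieces at the point `x` -/
def piece (x : X) : Set (ℝ × ℝ) :=
  {p x} ∪ ((⋃ l ∈ {l | src l = x}, c l '' Icc 0 (1 / 3)) ∪
    ⋃ l ∈ {l | tgt l = x}, c l '' Icc (2 / 3) 1)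

/-- the middle piece of the arc `l` -/
def mid (l : L) : Set (ℝ × ℝ) := c l '' Icc (1 / 3) (2 / 3)

variable {p src tgt c}

theorem mem_piece_start {l : L} {t : ℝ} (h0 : 0 ≤ t) (h1 : t ≤ 1 / 3) :
    c l t ∈ piece p src tgt c (src l) :=
  Or.inr (Or.inl (mem_biUnion (show l ∈ {l' | src l' = src l} from rfl) ⟨t, ⟨h0, h1⟩, rfl⟩))

theorem mem_piece_end {l : L} {t : ℝ} (h0 : 2 / 3 ≤ t) (h1 : t ≤ 1) :
    c l t ∈ piece p src tgt c (tgt l) :=
  Or.inr (Or.inr (mem_biUnion (show l ∈ {l' | tgt l' = tgt l} from rfl) ⟨t, ⟨h0, h1⟩, rfl⟩))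

theorem compact_piece [Finite L] (hc : ∀ l, ContinuousOn (c l) (Icc 0 1)) (x : X) :
    IsCompact (piece p src tgt c x) := by
  refine isCompact_singleton.union (IsCompact.union ?_ ?_)
  · refine (Set.toFinite _).isCompact_biUnion fun l _ => ?_
    exact isCompact_Icc.image_of_continuousOn ((hc l).mono (Icc_subset_Icc le_rfl (by norm_num)))
  · refine (Set.toFinite _).isCompact_biUnion fun l _ => ?_
    exact isCompact_Icc.image_of_continuousOn ((hc l).mono (Icc_subset_Icc (by norm_num) le_rfl))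

theorem compact_mid (hc : ∀ l, ContinuousOn (c l) (Icc 0 1)) (l : L) : IsCompact (mid c l) :=
  isCompact_Icc.image_of_continuousOn
    ((hc l).mono (Icc_subset_Icc (by norm_num) (by norm_num)))

theorem conn_mid (hc : ∀ l, ContinuousOn (c l) (Icc 0 1)) (l : L) : IsPreconnected (mid c l) :=
  isPreconnected_Icc.image _ ((hc l).mono (Icc_subset_Icc (by norm_num) (by norm_num)))

theorem conn_piece (hc : ∀ l, ContinuousOn (c l) (Icc 0 1)) (h0 : ∀ l, c l 0 = p (src l))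
    (h1 : ∀ l, c l 1 = p (tgt l)) (x : X) : IsPreconnected (piece p src tgt c x) := by
  refine isPreconnected_of_forall (p x) ?_
  rintro y (hy | hy | hy)
  · rw [mem_singleton_iff] at hy
    refine ⟨{p x}, Set.subset_union_left, rfl, hy, isPreconnected_singleton⟩
  · simp only [mem_iUnion, exists_prop] at hy
    obtain ⟨l, hl, hy⟩ := hy
    have hl' : src l = x := hl
    refine ⟨c l '' Icc 0 (1 / 3), ?_, ⟨0, ⟨le_rfl, by norm_num⟩, by rw [h0, hl']⟩, hy,
      isPreconnected_Icc.image _ ((hc l).mono (Icc_subset_Icc le_rfl (by norm_num)))⟩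
    rintro _ ⟨t, ht, rfl⟩
    rw [← hl']
    exact mem_piece_start ht.1 ht.2
  · simp only [mem_iUnion, exists_prop] at hy
    obtain ⟨l, hl, hy⟩ := hy
    have hl' : tgt l = x := hl
    refine ⟨c l '' Icc (2 / 3) 1, ?_, ⟨1, ⟨by norm_num, le_rfl⟩, by rw [h1, hl']⟩, hy,
      isPreconnected_Icc.image _ ((hc l).mono (Icc_subset_Icc (by norm_num) le_rfl))⟩
    rintro _ ⟨t, ht, rfl⟩
    rw [← hl']
    exact mem_piece_end ht.1 ht.2

/-- normal form of the points of a piece -/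
theorem piece_cases (h0 : ∀ l, c l 0 = p (src l)) (h1 : ∀ l, c l 1 = p (tgt l)) {x : X}
    {z : ℝ × ℝ} (hz : z ∈ piece p src tgt c x) :
    z = p x ∨ ∃ l t, t ∈ Ioo (0 : ℝ) 1 ∧ z = c l t ∧
      ((src l = x ∧ t ≤ 1 / 3) ∨ (tgt l = x ∧ 2 / 3 ≤ t)) := by
  rcases hz with hz | hz | hz
  · exact Or.inl hz
  · simp only [mem_iUnion, exists_prop] at hz
    obtain ⟨l, hl, t, ht, rfl⟩ := hz
    have hl' : src l = x := hl
    by_cases h : t = 0
    · left
      rw [h, h0, hl']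
    · right
      refine ⟨l, t, ⟨lt_of_le_of_ne ht.1 (Ne.symm h), ?_⟩, rfl, Or.inl ⟨hl', ht.2⟩⟩
      have := ht.2
      linarith
  · simp only [mem_iUnion, exists_prop] at hz
    obtain ⟨l, hl, t, ht, rfl⟩ := hz
    have hl' : tgt l = x := hl
    by_cases h : t = 1
    · left
      rw [h, h1, hl']
    · right
      refine ⟨l, t, ⟨?_, lt_of_le_of_ne ht.2 h⟩, rfl, Or.inr ⟨hl', ht.1⟩⟩
      have := ht.1
      linarith

end Pieces

end RArcs

open RArcs

/-- adjacency in a plane map is symmetric -/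
theorem adj_symm {X D : Type} [Fintype X] [Fintype D] (M : PlaneMap X D) {x y : X}
    (h : M.Adj x y) : M.Adj y x := by
  obtain ⟨d, h1, h2⟩ := h
  exact ⟨M.α d, h2, by rw [M.invol]; exact h1⟩

/-- the sets of cells: the branch sets -/
theorem exists_branch {X L : Type} [Finite X] [Finite L] {p : X → ℝ × ℝ} {src tgt : L → X}
    {c : L → ℝ → ℝ × ℝ} (hp : Function.Injective p) (hst : ∀ l, src l ≠ tgt l)
    (hc : ∀ l, ContinuousOn (c l) (Icc 0 1)) (h0 : ∀ l, c l 0 = p (src l))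
    (h1 : ∀ l, c l 1 = p (tgt l)) (hx : ∀ l x, ∀ t ∈ Ioo (0 : ℝ) 1, c l t ≠ p x)
    (hd : ∀ l l', ∀ s ∈ Ioo (0 : ℝ) 1, ∀ t ∈ Ioo (0 : ℝ) 1, c l s = c l' t → l = l' ∧ s = t) :
    ∃ B : X → Set (ℤ × ℤ), (∀ x, (B x).Finite) ∧ (∀ x, (B x).Nonempty) ∧
      (∀ x y, x ≠ y → Disjoint (B x) (B y)) ∧ (∀ x, Con SideAdj (B x)) ∧
      ∀ l, ∃ r ∈ B (src l), ∃ r' ∈ B (tgt l), SideAdj r r' := by
  let A : X ⊕ L → Set (ℝ × ℝ) := Sum.elim (piece p src tgt c) (mid c)
  obtain ⟨δ, hδ, hsep⟩ := exists_sep A (by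
    rintro (x | l)
    · exact compact_piece hc x
    · exact compact_mid hc l)
  have hmidmem : ∀ t : ℝ, t ∈ Icc (1 / 3 : ℝ) (2 / 3) → t ∈ Ioo (0 : ℝ) 1 := by
    intro t ht
    constructor <;> linarith [ht.1, ht.2]
  have haa : ∀ x y, x ≠ y → Disjoint (piece p src tgt c x) (piece p src tgt c y) := by
    intro x y hxy
    rw [Set.disjoint_left]
    intro z hzx hzy
    rcases piece_cases h0 h1 hzx with hz | ⟨l, t, ht, hz, hl⟩
    · rcases piece_cases h0 h1 hzy with hz' | ⟨l', t', ht', hz', hl'⟩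
      · exact hxy (hp (hz.symm.trans hz'))
      · exact hx l' x t' ht' (hz'.symm.trans hz)
    · rcases piece_cases h0 h1 hzy with hz' | ⟨l', t', ht', hz', hl'⟩
      · exact hx l y t ht (hz.symm.trans hz')
      · obtain ⟨rfl, rfl⟩ := hd l l' t ht t' ht' (hz.symm.trans hz')
        rcases hl with ⟨a1, a2⟩ | ⟨a1, a2⟩ <;> rcases hl' with ⟨b1, b2⟩ | ⟨b1, b2⟩
        · exact hxy (a1.symm.trans b1)
        · linarith
        · linarith
        · exact hxy (a1.symm.trans b1)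
  have hmm : ∀ l l', l ≠ l' → Disjoint (mid c l) (mid c l') := by
    intro l l' hll
    rw [Set.disjoint_left]
    rintro _ ⟨s, hs, rfl⟩ ⟨t, ht, hst'⟩
    exact hll (hd l l' s (hmidmem s hs) t (hmidmem t ht) hst'.symm).1
  have hma : ∀ l z, z ≠ src l → z ≠ tgt l → Disjoint (mid c l) (piece p src tgt c z) := by
    intro l z hz1 hz2
    rw [Set.disjoint_left]
    rintro _ ⟨s, hs, rfl⟩ hz
    rcases piece_cases h0 h1 hz with hz' | ⟨l', t', ht', hz', hl'⟩
    · exact hx l z s (hmidmem s hs) hz'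
    · obtain ⟨rfl, rfl⟩ := hd l l' s (hmidmem s hs) t' ht' hz'
      rcases hl' with ⟨b1, b2⟩ | ⟨b1, b2⟩
      · exact hz1 b1.symm
      · exact hz2 b1.symm
  have hbA : ∀ x, Bornology.IsBounded (piece p src tgt c x) := fun x =>
    (compact_piece hc x).isBounded
  have hbM : ∀ l, Bornology.IsBounded (mid c l) := fun l => (compact_mid hc l).isBounded
  have hq0 : ∀ l, ∃ q, q ∈ cells δ (mid c l) ∧ q ∈ cells δ (piece p src tgt c (src l)) := by
    intro l
    obtain ⟨q, hq⟩ := exists_cell hδ (c l (1 / 3))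
    exact ⟨q, subset_cells (show c l (1 / 3) ∈ mid c l from
      ⟨1 / 3, ⟨le_rfl, by norm_num⟩, rfl⟩) hq,
      subset_cells (mem_piece_start (by norm_num) le_rfl) hq⟩
  have hq1 : ∀ l, ∃ q, q ∈ cells δ (mid c l) ∧ q ∈ cells δ (piece p src tgt c (tgt l)) := by
    intro l
    obtain ⟨q, hq⟩ := exists_cell hδ (c l (2 / 3))
    exact ⟨q, subset_cells (show c l (2 / 3) ∈ mid c l from
      ⟨2 / 3, ⟨by norm_num, le_rfl⟩, rfl⟩) hq,
      subset_cells (mem_piece_end le_rfl (by norm_num)) hq⟩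
  choose q0 hq0 using hq0
  choose q1 hq1 using hq1
  have hnea : ∀ x, (cells δ (piece p src tgt c x)).Nonempty := by
    intro x
    obtain ⟨q, hq⟩ := exists_cell hδ (p x)
    exact ⟨q, subset_cells (Or.inl rfl) hq⟩
  obtain ⟨B, hB1, hB2, hB3, hB4, hB5⟩ := comb (adj := SideAdj) (fun u v h => h.symm) src tgt hst
    (fun x => cells δ (piece p src tgt c x)) (fun l => cells δ (mid c l)) hnea
    (fun x u hu v hv => cells_connected hδ (conn_piece hc h0 h1 x) (hbA x) hu hv)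
    (fun l u hu v hv => cells_connected hδ (conn_mid hc l) (hbM l) hu hv)
    (fun x y hxy => disjoint_cells (hsep (Sum.inl x) (Sum.inl y) (haa x y hxy)))
    (fun l l' hll => disjoint_cells (hsep (Sum.inr l) (Sum.inr l') (hmm l l' hll)))
    (fun l z hz1 hz2 => disjoint_cells (hsep (Sum.inr l) (Sum.inl z) (hma l z hz1 hz2)))
    q0 q1 hq0 hq1
  refine ⟨B, fun x => ?_, fun x => (hnea x).mono (hB1 x), hB3, hB4, hB5⟩
  refine Set.Finite.subset ((finite_cells hδ (hbA x)).union ?_) (hB2 x)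
  exact Set.finite_iUnion fun l => finite_cells hδ (hbM l)

/-- the place of a cell on the cylinder -/
def place (N : ℕ) (q : ℤ × ℤ) : ZMod (2 * N + 3) × Fin (2 * N + 2 + 1) :=
  (((q.1 + N : ℤ) : ZMod (2 * N + 3)), ⟨min (q.2 + N).toNat (2 * N + 2), by omega⟩)

/-- the box -/
def box (N : ℕ) : Set (ℤ × ℤ) := {q | |q.1| ≤ N ∧ |q.2| ≤ N}

theorem place_inj {N : ℕ} {q q' : ℤ × ℤ} (hq : q ∈ box N) (hq' : q' ∈ box N)
    (h : place N q = place N q') : q = q' := by
  obtain ⟨a1, a2⟩ := hq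
  obtain ⟨b1, b2⟩ := hq'
  rw [abs_le] at a1 a2 b1 b2
  obtain ⟨h1, h2⟩ := Prod.ext_iff.mp h
  simp only [place] at h1 h2
  rw [Fin.mk.injEq] at h2
  rw [ZMod.intCast_eq_intCast_iff_dvd_sub] at h1
  refine Prod.ext ?_ ?_
  · obtain ⟨k, hk⟩ := h1
    push_cast at hk
    have hk0 : k = 0 := by
      by_contra hne
      rcases lt_or_gt_of_ne hne with hlt | hgt
      · have : k ≤ -1 := by omega
        nlinarith
      · have : 1 ≤ k := by omega
        nlinarith
    rw [hk0] at hk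
    omega
  · omega

theorem place_adj {N : ℕ} {D : Type} [Fintype D]
    (M : PlaneMap (ZMod (2 * N + 3) × Fin (2 * N + 2 + 1)) D)
    (hM1 : ∀ i j, M.Adj (i, j) (i + 1, j))
    (hM2 : ∀ (i : ZMod (2 * N + 3)) (j : ℕ) (h : j + 1 < 2 * N + 2 + 1),
      M.Adj (i, ⟨j, by omega⟩) (i, ⟨j + 1, h⟩)) {q q' : ℤ × ℤ} (hq : q ∈ box N)
    (hq' : q' ∈ box N) (h : SideAdj q q') : M.Adj (place N q) (place N q') := by
  obtain ⟨a1, a2⟩ := hq
  obtain ⟨b1, b2⟩ := hq'
  rw [abs_le] at a1 a2 b1 b2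
  have hor : ∀ u v : ℤ × ℤ, u.2 = v.2 → v.1 = u.1 + 1 → M.Adj (place N u) (place N v) := by
    intro u v h1 h2
    have : place N v = ((place N u).1 + 1, (place N u).2) := by
      refine Prod.ext ?_ ?_
      · simp only [place, h2]
        push_cast
        ring
      · simp only [place, h1]
    rw [this]
    exact hM1 _ _
  have ver : ∀ u v : ℤ × ℤ, u.1 = v.1 → v.2 = u.2 + 1 → -(N : ℤ) ≤ u.2 → v.2 ≤ N →
      M.Adj (place N u) (place N v) := by
    intro u v h1 h2 h3 h4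
    have hu : (place N u).2 = ⟨(u.2 + N).toNat, by omega⟩ := by
      simp only [place]
      rw [Fin.mk.injEq]
      omega
    have hv : (place N v).2 = ⟨(u.2 + N).toNat + 1, by omega⟩ := by
      simp only [place, h2]
      rw [Fin.mk.injEq]
      omega
    have h1' : (place N v).1 = (place N u).1 := by simp only [place, h1]
    have eu : place N u = ((place N u).1, ⟨(u.2 + N).toNat, by omega⟩) := Prod.ext rfl hu
    have ev : place N v = ((place N u).1, ⟨(u.2 + N).toNat + 1, by omega⟩) := Prod.ext h1' hv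
    rw [ev, eu]
    exact hM2 _ _ _
  rcases h with ⟨h1, h2 | h2⟩ | ⟨h1, h2 | h2⟩
  · exact hor q q' h1 h2
  · exact adj_symm M (hor q' q h1.symm h2)
  · exact ver q q' h1 h2 a2.1 b2.2
  · exact adj_symm M (ver q' q h1.symm h2 b2.1 a2.2)

theorem arcs (grid : StGrid) (minor : StMinor) : StArcs := by
  intro X L _ _ p src tgt c hp hst hc h0 h1 hx hd
  obtain ⟨B, hfin, hne, hdis, hcon, hadj⟩ := exists_branch hp hst hc h0 h1 hx hd
  -- the box
  obtain ⟨N, hN⟩ : ∃ N : ℕ, ∀ x, B x ⊆ box N := by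
    have hU : (⋃ x, B x).Finite := Set.finite_iUnion hfin
    obtain ⟨N, hN⟩ : ∃ N : ℕ, ∀ q ∈ ⋃ x, B x, q.1.natAbs + q.2.natAbs ≤ N := by
      obtain ⟨N, hN⟩ := (hU.image (fun q : ℤ × ℤ => q.1.natAbs + q.2.natAbs)).bddAbove
      exact ⟨N, fun q hq => hN ⟨q, hq, rfl⟩⟩
    refine ⟨N, fun x q hq => ?_⟩
    have := hN q (mem_iUnion.mpr ⟨x, hq⟩)
    constructor
    · rw [Int.abs_eq_natAbs]
      omega
    · rw [Int.abs_eq_natAbs]
      omega
  obtain ⟨D, _, M, hM1, hM2⟩ := grid (2 * N + 3) (2 * N + 2) (by omega)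
  -- the contraction
  let G := ZMod (2 * N + 3) × Fin (2 * N + 2 + 1)
  let Y := X ⊕ {v : G // ∀ x, v ∉ place N '' B x}
  have hfY : Finite Y := inferInstance
  let _ : Fintype Y := Fintype.ofFinite Y
  have hun : ∀ x y (v : G), v ∈ place N '' B x → v ∈ place N '' B y → x = y := by
    rintro x y v ⟨q, hq, rfl⟩ ⟨q', hq', h⟩
    by_contra hxy
    have := place_inj (hN y hq') (hN x hq) h
    rw [this] at hq'
    exact Set.disjoint_left.mp (hdis x y hxy) hq hq'
  let f : G → Y := fun v => if h : ∃ x, v ∈ place N '' B x then Sum.inl h.choose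
    else Sum.inr ⟨v, fun x hv => h ⟨x, hv⟩⟩
  have hf1 : ∀ x (v : G), v ∈ place N '' B x → f v = Sum.inl x := by
    intro x v hv
    have h : ∃ x, v ∈ place N '' B x := ⟨x, hv⟩
    have hfv : f v = Sum.inl h.choose := dif_pos h
    rw [hfv, hun _ _ v h.choose_spec hv]
  have hf2 : ∀ v : G, (h : ∀ x, v ∉ place N '' B x) → f v = Sum.inr ⟨v, h⟩ := by
    intro v h
    have h' : ¬ ∃ x, v ∈ place N '' B x := fun ⟨x, hx⟩ => h x hx
    exact dif_neg h'
  have hsurj : Function.Surjective f := by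
    rintro (x | v)
    · obtain ⟨q, hq⟩ := hne x
      exact ⟨place N q, hf1 x _ ⟨q, hq, rfl⟩⟩
    · exact ⟨v.1, hf2 v.1 v.2⟩
  have hfib : ∀ v w : G, f v = f w →
      Relation.ReflTransGen (fun a b => f a = f v ∧ f b = f v ∧ M.Adj a b) v w := by
    intro v w hvw
    by_cases hv : ∃ x, v ∈ place N '' B x
    · obtain ⟨x, hv⟩ := hv
      have hfv := hf1 x v hv
      have hw : w ∈ place N '' B x := by
        by_cases hw : ∃ y, w ∈ place N '' B y
        · obtain ⟨y, hw⟩ := hw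
          have hfw := hf1 y w hw
          rw [hfv, hfw] at hvw
          have hxy := Sum.inl.inj hvw
          rw [hxy]
          exact hw
        · push Not at hw
          rw [hfv, hf2 w hw] at hvw
          exact absurd hvw (by simp)
      obtain ⟨q, hq, rfl⟩ := hv
      obtain ⟨q', hq', rfl⟩ := hw
      have hpath := hcon x q hq q' hq'
      rw [hfv]
      clear hvw hfv
      induction hpath with
      | refl => exact Relation.ReflTransGen.refl
      | tail h1 h2 ih =>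
        exact (ih h2.1).tail ⟨hf1 x _ ⟨_, h2.1, rfl⟩, hf1 x _ ⟨_, h2.2.1, rfl⟩,
          place_adj M hM1 hM2 (hN x h2.1) (hN x h2.2.1) h2.2.2⟩
    · push Not at hv
      have hfv := hf2 v hv
      have hw : w = v := by
        by_cases hw : ∃ y, w ∈ place N '' B y
        · obtain ⟨y, hw⟩ := hw
          rw [hfv, hf1 y w hw] at hvw
          exact absurd hvw (by simp)
        · push Not at hw
          rw [hfv, hf2 w hw] at hvw
          exact (Subtype.ext_iff.mp (Sum.inr.inj hvw)).symm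
      rw [hw]
  obtain ⟨M', hM'1, hM'2⟩ := minor G Y D M f hsurj hfib
  refine ⟨Y, D, inferInstance, inferInstance, M', Sum.inl, Sum.inl_injective, ?_⟩
  intro l
  obtain ⟨r, hr, r', hr', hrr⟩ := hadj l
  obtain ⟨d, hd1, hd2⟩ := place_adj M hM1 hM2 (hN _ hr) (hN _ hr') hrr
  refine ⟨d, ?_, ?_⟩
  · rw [hM'1, hd1]
    exact hf1 _ _ ⟨r, hr, rfl⟩
  · rw [hM'1, hM'2, hd2]
    exact hf1 _ _ ⟨r', hr', rfl⟩

end Pool.Agent.Lib.MP_1fca17_co.T
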