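import Mathlib

/-!
# MP_1fca17_co : the cells of a square grid that meet a compact connected set are connected
-/

namespace Pool.Agent.Lib.MP_1fca17_co.T.Cells21

open Set

/-- the closed cell `(i, j)` of the square grid of mesh `h` -/
def cell (h : ℝ) (c : ℤ × ℤ) : Set (ℝ × ℝ) :=
  {x | c.1 * h ≤ x.1 ∧ x.1 ≤ (c.1 + 1) * h ∧ c.2 * h ≤ x.2 ∧ x.2 ≤ (c.2 + 1) * h}

/-- side adjacency of cells -/
def Nb (c d : ℤ × ℤ) : Prop :=
  (c.1 = d.1 ∧ (c.2 = d.2 + 1 ∨ d.2 = c.2 + 1)) ∨ (c.2 = d.2 ∧ (c.1 = d.1 + 1 ∨ d.1 = c.1 + 1))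

/-- the cells that meet `X` -/
def cells (h : ℝ) (X : Set (ℝ × ℝ)) : Set (ℤ × ℤ) := {c | (cell h c ∩ X).Nonempty}

lemma Nb.symm {c d : ℤ × ℤ} (h : Nb c d) : Nb d c := by
  unfold Nb at *
  omega

lemma isClosed_cell (h : ℝ) (c : ℤ × ℤ) : IsClosed (cell h c) := by
  unfold cell
  simp only [setOf_and]
  refine (isClosed_le continuous_const continuous_fst).inter
    ((isClosed_le continuous_fst continuous_const).inter
    ((isClosed_le continuous_const continuous_snd).inter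
    (isClosed_le continuous_snd continuous_const)))

lemma mem_cell_floor {h : ℝ} (hh : 0 < h) (x : ℝ × ℝ) :
    x ∈ cell h (⌊x.1 / h⌋, ⌊x.2 / h⌋) := by
  have h1 := Int.floor_le (x.1 / h)
  have h2 := Int.lt_floor_add_one (x.1 / h)
  have h3 := Int.floor_le (x.2 / h)
  have h4 := Int.lt_floor_add_one (x.2 / h)
  rw [le_div_iff₀ hh] at h1 h3
  rw [div_lt_iff₀ hh] at h2 h4
  exact ⟨h1, h2.le, h3, h4.le⟩

lemma cells_finite {h : ℝ} (hh : 0 < h) {X : Set (ℝ × ℝ)} (hX : IsCompact X) :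
    (cells h X).Finite := by
  obtain ⟨M, hM⟩ := hX.isBounded.exists_norm_le
  have hM' : ∀ x ∈ X, |x.1| ≤ M ∧ |x.2| ≤ M := by
    intro x hx
    have := hM x hx
    rw [Prod.norm_def] at this
    exact ⟨(le_max_left _ _).trans this, (le_max_right _ _).trans this⟩
  set N : ℤ := ⌈M / h⌉ + 1 with hN
  have hMN : M ≤ (N - 1) * h := by
    have : M / h ≤ ((⌈M / h⌉ : ℤ) : ℝ) := Int.le_ceil _
    rw [div_le_iff₀ hh] at this
    have h2 : ((N : ℝ) - 1) = ((⌈M / h⌉ : ℤ) : ℝ) := by rw [hN]; push_cast; ring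
    rw [h2]
    exact this
  apply ((finite_Icc (-N) N).prod (finite_Icc (-N) N)).subset
  rintro ⟨i, j⟩ ⟨x, hxc, hx⟩
  obtain ⟨h1, h2⟩ := hM' x hx
  rw [abs_le] at h1 h2
  obtain ⟨k1, k2, k3, k4⟩ := hxc
  simp only at k1 k2 k3 k4
  have e1 : (i : ℝ) * h ≤ (N - 1) * h := k1.trans (h1.2.trans hMN)
  have e2 : (-(N - 1) : ℝ) * h ≤ (i + 1) * h := by linarith [h1.1]
  have e3 : (j : ℝ) * h ≤ (N - 1) * h := k3.trans (h2.2.trans hMN)
  have e4 : (-(N - 1) : ℝ) * h ≤ (j + 1) * h := by linarith [h2.1]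
  have f1 := le_of_mul_le_mul_right e1 hh
  have f2 := le_of_mul_le_mul_right e2 hh
  have f3 := le_of_mul_le_mul_right e3 hh
  have f4 := le_of_mul_le_mul_right e4 hh
  have g1 : i ≤ N - 1 := by exact_mod_cast f1
  have g2 : -(N - 1) ≤ i + 1 := by exact_mod_cast f2
  have g3 : j ≤ N - 1 := by exact_mod_cast f3
  have g4 : -(N - 1) ≤ j + 1 := by exact_mod_cast f4
  simp only [mem_prod, mem_Icc]
  omega

/-- two cells with a common point of `X` are connected by cells that meet `X` -/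
lemma common_point {h : ℝ} (hh : 0 < h) {X : Set (ℝ × ℝ)} {c d : ℤ × ℤ} {x : ℝ × ℝ}
    (hx : x ∈ X) (hc : x ∈ cell h c) (hd : x ∈ cell h d) :
    Relation.ReflTransGen (fun a b => a ∈ cells h X ∧ b ∈ cells h X ∧ Nb a b) c d := by
  obtain ⟨i, j⟩ := c
  obtain ⟨i', j'⟩ := d
  obtain ⟨h1, h2, h3, h4⟩ := hc
  obtain ⟨k1, k2, k3, k4⟩ := hd
  simp only at h1 h2 h3 h4 k1 k2 k3 k4
  have a1 : i ≤ i' + 1 := by
    have := le_of_mul_le_mul_right (h1.trans k2) hh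
    exact_mod_cast this
  have a2 : i' ≤ i + 1 := by
    have := le_of_mul_le_mul_right (k1.trans h2) hh
    exact_mod_cast this
  have a3 : j ≤ j' + 1 := by
    have := le_of_mul_le_mul_right (h3.trans k4) hh
    exact_mod_cast this
  have a4 : j' ≤ j + 1 := by
    have := le_of_mul_le_mul_right (k3.trans h4) hh
    exact_mod_cast this
  have m1 : (i, j) ∈ cells h X := ⟨x, ⟨h1, h2, h3, h4⟩, hx⟩
  have m2 : (i, j') ∈ cells h X := ⟨x, ⟨h1, h2, k3, k4⟩, hx⟩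
  have m3 : (i', j') ∈ cells h X := ⟨x, ⟨k1, k2, k3, k4⟩, hx⟩
  have s1 : Relation.ReflTransGen (fun a b => a ∈ cells h X ∧ b ∈ cells h X ∧ Nb a b)
      (i, j) (i, j') := by
    by_cases hj : j = j'
    · subst hj; exact Relation.ReflTransGen.refl
    · refine Relation.ReflTransGen.single ⟨m1, m2, Or.inl ⟨rfl, ?_⟩⟩
      simp only
      omega
  have s2 : Relation.ReflTransGen (fun a b => a ∈ cells h X ∧ b ∈ cells h X ∧ Nb a b)
      (i, j') (i', j') := by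
    by_cases hi : i = i'
    · subst hi; exact Relation.ReflTransGen.refl
    · refine Relation.ReflTransGen.single ⟨m2, m3, Or.inr ⟨rfl, ?_⟩⟩
      simp only
      omega
  exact s1.trans s2

/-- the cells that meet a compact connected set are connected by side adjacency -/
theorem cells_connected {h : ℝ} (hh : 0 < h) {X : Set (ℝ × ℝ)} (hX : IsCompact X)
    (hc : IsPreconnected X) {c d : ℤ × ℤ} (hcX : c ∈ cells h X) (hdX : d ∈ cells h X) :
    Relation.ReflTransGen (fun a b => a ∈ cells h X ∧ b ∈ cells h X ∧ Nb a b) c d := by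
  by_contra hcd
  set R := Relation.ReflTransGen (fun a b => a ∈ cells h X ∧ b ∈ cells h X ∧ Nb a b) with hR
  set C1 := {e | e ∈ cells h X ∧ R c e} with hC1
  set C2 := {e | e ∈ cells h X ∧ ¬ R c e} with hC2
  have hfin := cells_finite hh hX
  have hF1 : IsClosed (⋃ e ∈ C1, cell h e) :=
    (hfin.subset (fun e he => he.1)).isClosed_biUnion (fun e _ => isClosed_cell h e)
  have hF2 : IsClosed (⋃ e ∈ C2, cell h e) :=
    (hfin.subset (fun e he => he.1)).isClosed_biUnion (fun e _ => isClosed_cell h e)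
  rw [isPreconnected_closed_iff] at hc
  have hsub : X ⊆ (⋃ e ∈ C1, cell h e) ∪ (⋃ e ∈ C2, cell h e) := by
    intro x hx
    have hxc := mem_cell_floor hh x
    by_cases hr : R c (⌊x.1 / h⌋, ⌊x.2 / h⌋)
    · left
      rw [mem_iUnion₂]
      exact ⟨_, ⟨⟨x, hxc, hx⟩, hr⟩, hxc⟩
    · right
      rw [mem_iUnion₂]
      exact ⟨_, ⟨⟨x, hxc, hx⟩, hr⟩, hxc⟩
  obtain ⟨x, hx1, hx2⟩ := id hcX
  obtain ⟨y, hy1, hy2⟩ := id hdX
  have h1 : (X ∩ ⋃ e ∈ C1, cell h e).Nonempty := by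
    refine ⟨x, hx2, ?_⟩
    rw [mem_iUnion₂]
    exact ⟨c, ⟨hcX, Relation.ReflTransGen.refl⟩, hx1⟩
  have h2 : (X ∩ ⋃ e ∈ C2, cell h e).Nonempty := by
    refine ⟨y, hy2, ?_⟩
    rw [mem_iUnion₂]
    exact ⟨d, ⟨hdX, hcd⟩, hy1⟩
  obtain ⟨z, hz, hz1, hz2⟩ := hc _ _ hF1 hF2 hsub h1 h2
  rw [mem_iUnion₂] at hz1 hz2
  obtain ⟨e, he, hze⟩ := hz1
  obtain ⟨f, hf, hzf⟩ := hz2
  exact hf.2 (he.2.trans (common_point hh hz hze hzf))

end Pool.Agent.Lib.MP_1fca17_co.T.Cells21
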