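import Mathlib
import Pool.Agent.Lib.MP_1fca17_co.Q.Defs

/-!
# MP_1fca17_co : a drawing by Jordan arcs gives a planarization (row CHAIN)
-/

namespace Pool.Agent.Lib.MP_1fca17_co.T.Chain21

open Finset
open scoped Classical
open Pool.Agent.Lib.MP_1fca17_co.Q (PlaneMap KPlanar)

noncomputable section

/-- PLANAR: finitely many points of the plane and finitely many arcs between them that meet only
in these points are realized in a plane map -/
def StPlanar : Prop := ∀ (X E : Type) [Fintype X] [Fintype E] (pt : X → ℝ × ℝ) (a b : E → X)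
  (g : E → ℝ → ℝ × ℝ), Nonempty X → Function.Injective pt →
  (∀ e, a e ≠ b e) → (∀ e, ContinuousOn (g e) (Set.Icc 0 1)) →
  (∀ e, g e 0 = pt (a e)) → (∀ e, g e 1 = pt (b e)) →
  (∀ e x, ∀ t ∈ Set.Icc (0 : ℝ) 1, g e t = pt x → t = 0 ∨ t = 1) →
  (∀ e f, e ≠ f → ∀ s ∈ Set.Icc (0 : ℝ) 1, ∀ t ∈ Set.Icc (0 : ℝ) 1, g e s = g f t →
    s = 0 ∨ s = 1) →
  ∃ (D : Type) (_ : Fintype D) (M : PlaneMap X D), ∀ e, M.Adj (a e) (b e)

lemma adj_symm {X D : Type} [Fintype X] [Fintype D] {M : PlaneMap X D} {x y : X}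
    (h : M.Adj x y) : M.Adj y x := by
  obtain ⟨d, h1, h2⟩ := h
  exact ⟨M.α d, h2, by rw [M.invol]; exact h1⟩

lemma mem_between {l : List ℝ} (hl : l.Pairwise (· < ·)) {s : ℝ} (hs : s ∈ l) {i : ℕ}
    (hi : i + 1 < l.length) (h1 : l[i] ≤ s) (h2 : s ≤ l[i + 1]) : s = l[i] ∨ s = l[i + 1] := by
  obtain ⟨j, hj, rfl⟩ := List.getElem_of_mem hs
  rw [List.pairwise_iff_getElem] at hl
  rcases lt_trichotomy j i with h | h | h
  · have := hl j i hj (by omega) h
    linarith
  · subst h; left; rfl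
  · rcases Nat.lt_or_ge (i + 1) j with h' | h'
    · have := hl (i + 1) j hi hj h'
      linarith
    · have : j = i + 1 := by omega
      subst this; right; rfl

/-- affine parametrization of a piece -/
def prm (x y t : ℝ) : ℝ := x + t * (y - x)

lemma prm_mem {x y t : ℝ} (hxy : x < y) (ht : t ∈ Set.Icc (0 : ℝ) 1) :
    x ≤ prm x y t ∧ prm x y t ≤ y := by
  unfold prm
  obtain ⟨h1, h2⟩ := ht
  constructor <;> nlinarith

lemma prm_left {x y t : ℝ} (hxy : x < y) (h : prm x y t = x) : t = 0 := by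
  unfold prm at h
  have : t * (y - x) = 0 := by linarith
  rcases mul_eq_zero.1 this with h | h
  · exact h
  · linarith

lemma prm_right {x y t : ℝ} (hxy : x < y) (h : prm x y t = y) : t = 1 := by
  unfold prm at h
  have : (t - 1) * (y - x) = 0 := by linarith
  rcases mul_eq_zero.1 this with h | h
  · linarith
  · linarith

/-- CHAIN -/
theorem chain (hPL : StPlanar) {V E : Type} [Fintype V] [Fintype E] (G : SimpleGraph V) (k : ℕ)
    (src tgt : E → V) (hst : ∀ e, G.Adj (src e) (tgt e))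
    (hinj : ∀ e f, s(src e, tgt e) = s(src f, tgt f) → e = f)
    (hsurj : ∀ u v, G.Adj u v → ∃ e, s(src e, tgt e) = s(u, v))
    (pos : V → ℝ × ℝ) (hpos : Function.Injective pos) (γ : E → ℝ → ℝ × ℝ)
    (hcont : ∀ e, ContinuousOn (γ e) (Set.Icc 0 1)) (hγ : ∀ e, Set.InjOn (γ e) (Set.Icc 0 1))
    (h0 : ∀ e, γ e 0 = pos (src e)) (h1 : ∀ e, γ e 1 = pos (tgt e))
    (hav : ∀ e w, ∀ t ∈ Set.Icc (0 : ℝ) 1, γ e t = pos w → t = 0 ∨ t = 1)
    (hcr : ∀ e, {t | t ∈ Set.Ioo (0 : ℝ) 1 ∧ ∃ f, f ≠ e ∧ ∃ s ∈ Set.Icc (0 : ℝ) 1,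
      γ f s = γ e t}.Finite ∧
      {t | t ∈ Set.Ioo (0 : ℝ) 1 ∧ ∃ f, f ≠ e ∧ ∃ s ∈ Set.Icc (0 : ℝ) 1,
      γ f s = γ e t}.ncard ≤ k)
    (h3 : ∀ z, z ∉ Set.range pos → {e | z ∈ γ e '' Set.Icc (0 : ℝ) 1}.ncard ≤ 2) :
    KPlanar k G := by
  by_cases hV : Nonempty V
  swap
  · -- no vertices
    rw [not_nonempty_iff] at hV
    obtain ⟨D, hD, M, -⟩ := hPL Unit Empty (fun _ => (0, 0)) (fun e => e.elim) (fun e => e.elim)
      (fun e => e.elim) ⟨()⟩ (fun _ _ _ => rfl) (fun e => e.elim) (fun e => e.elim)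
      (fun e => e.elim) (fun e => e.elim) (fun e => e.elim) (fun e => e.elim)
    refine ⟨Unit, D, inferInstance, hD, M, fun v => (hV.false v).elim, fun v => (hV.false v).elim,
      fun v => (hV.false v).elim, fun v => (hV.false v).elim, ?_⟩
    intro x _
    have : {e : Sym2 V | ∃ u v, e = s(u, v) ∧ G.Adj u v ∧
        x ∈ (fun v => (hV.false v).elim : V → V → List Unit) u v} = ∅ := by
      ext e
      simp only [Set.mem_setOf_eq, Set.mem_empty_iff_false, iff_false]
      rintro ⟨u, -⟩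
      exact hV.false u
    rw [this]
    simp
  obtain ⟨v0⟩ := hV
  choose hfin hcard using hcr
  set T : E → Finset ℝ := fun e => (hfin e).toFinset with hT
  have hTm : ∀ e t, t ∈ T e ↔ t ∈ Set.Ioo (0 : ℝ) 1 ∧ ∃ f, f ≠ e ∧ ∃ s ∈ Set.Icc (0 : ℝ) 1,
      γ f s = γ e t := by
    intro e t
    rw [hT]
    simp only [Set.Finite.mem_toFinset, Set.mem_setOf_eq]
  have hTc : ∀ e, (T e).card ≤ k := by
    intro e
    have := hcard e
    rwa [Set.ncard_eq_toFinset_card _ (hfin e)] at this
  set l : E → List ℝ := fun e => 0 :: ((T e).sort (· ≤ ·) ++ [1]) with hl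
  have hlp : ∀ e, (l e).Pairwise (· < ·) := by
    intro e
    rw [hl]
    simp only [List.pairwise_cons, List.mem_append, Finset.mem_sort, List.mem_singleton]
    refine ⟨?_, ?_⟩
    · rintro t (ht | ht)
      · exact ((hTm e t).1 ht).1.1
      · rw [ht]; norm_num
    · rw [List.pairwise_append]
      refine ⟨(Finset.sortedLT_sort (T e)).pairwise, List.pairwise_singleton _ _, ?_⟩
      intro t ht s hs
      rw [List.mem_singleton] at hs
      rw [hs]
      exact ((hTm e t).1 ((Finset.mem_sort _).1 ht)).1.2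
  have hlm : ∀ e t, t ∈ l e ↔ t = 0 ∨ t ∈ T e ∨ t = 1 := by
    intro e t
    rw [hl]
    simp only [List.mem_cons, List.mem_append, Finset.mem_sort, List.not_mem_nil, or_false]
  have hlI : ∀ e, ∀ t ∈ l e, t ∈ Set.Icc (0 : ℝ) 1 := by
    intro e t ht
    rcases (hlm e t).1 ht with h | h | h
    · rw [h]; exact ⟨le_rfl, zero_le_one⟩
    · have := ((hTm e t).1 h).1
      exact ⟨this.1.le, this.2.le⟩
    · rw [h]; exact ⟨zero_le_one, le_rfl⟩
  -- the points
  set Z : Finset (ℝ × ℝ) := (univ.image pos) ∪ (univ : Finset E).biUnion (fun e => (T e).image (γ e))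
    with hZ
  have hZm : ∀ z, z ∈ Z ↔ (∃ v, pos v = z) ∨ ∃ e, ∃ t ∈ T e, γ e t = z := by
    intro z
    rw [hZ]
    simp only [mem_union, mem_image, mem_univ, true_and, mem_biUnion]
  have hposZ : ∀ v, pos v ∈ Z := fun v => (hZm _).2 (Or.inl ⟨v, rfl⟩)
  have hlZ : ∀ e, ∀ t ∈ l e, γ e t ∈ Z := by
    intro e t ht
    rcases (hlm e t).1 ht with h | h | h
    · rw [h, h0]; exact hposZ _
    · exact (hZm _).2 (Or.inr ⟨e, t, h, rfl⟩)
    · rw [h, h1]; exact hposZ _
  set φ : E → ℝ → {z // z ∈ Z} := fun e t => if h : γ e t ∈ Z then ⟨γ e t, h⟩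
    else ⟨pos v0, hposZ v0⟩ with hφ
  have hφv : ∀ e, ∀ t ∈ l e, ((φ e t : {z // z ∈ Z}) : ℝ × ℝ) = γ e t := by
    intro e t ht
    rw [hφ]
    simp only [hlZ e t ht, dif_pos]
  -- times in Z are in the list
  have hint : ∀ e f, e ≠ f → ∀ s ∈ Set.Icc (0 : ℝ) 1, ∀ t ∈ Set.Icc (0 : ℝ) 1,
      γ e s = γ f t → s ∈ l e := by
    intro e f hef s hs t ht hst'
    rw [hlm]
    by_cases hs0 : s = 0
    · exact Or.inl hs0
    by_cases hs1 : s = 1
    · exact Or.inr (Or.inr hs1)
    refine Or.inr (Or.inl ((hTm e s).2 ⟨⟨lt_of_le_of_ne hs.1 (Ne.symm hs0),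
      lt_of_le_of_ne hs.2 hs1⟩, f, Ne.symm hef, t, ht, hst'.symm⟩))
  have hZl : ∀ e, ∀ s ∈ Set.Icc (0 : ℝ) 1, γ e s ∈ Z → s ∈ l e := by
    intro e s hs hz
    rcases (hZm _).1 hz with ⟨v, hv⟩ | ⟨f, t, ht, hft⟩
    · rcases hav e v s hs hv.symm with h | h
      · exact (hlm e s).2 (Or.inl h)
      · exact (hlm e s).2 (Or.inr (Or.inr h))
    · have htI : t ∈ Set.Icc (0 : ℝ) 1 := by
        have := ((hTm f t).1 ht).1
        exact ⟨this.1.le, this.2.le⟩
      by_cases hef : e = f
      · subst hef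
        have := hγ e htI hs hft
        rw [← this]
        exact (hlm e t).2 (Or.inr (Or.inl ht))
      · exact hint e f hef s hs t htI hft.symm
  -- the pieces
  obtain ⟨D, hD, M, hM⟩ := hPL {z // z ∈ Z} (Σ e : E, Fin ((l e).length - 1)) Subtype.val
    (fun p => φ p.1 ((l p.1)[(p.2 : ℕ)]'(by have := p.2.2; omega)))
    (fun p => φ p.1 ((l p.1)[(p.2 : ℕ) + 1]'(by have := p.2.2; omega)))
    (fun p t => γ p.1 (prm ((l p.1)[(p.2 : ℕ)]'(by have := p.2.2; omega))
      ((l p.1)[(p.2 : ℕ) + 1]'(by have := p.2.2; omega)) t))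
    ⟨⟨pos v0, hposZ v0⟩⟩ Subtype.val_injective
    (by
      rintro ⟨e, i, hi⟩ h
      simp only at h
      have hi' : i + 1 < (l e).length := by omega
      have m1 : (l e)[i] ∈ l e := List.getElem_mem _
      have m2 : (l e)[i + 1] ∈ l e := List.getElem_mem _
      have h' := congrArg Subtype.val h
      rw [hφv e _ m1, hφv e _ m2] at h'
      have h2 := hγ e (hlI e _ m1) (hlI e _ m2) h'
      have h3 := (List.pairwise_iff_getElem.1 (hlp e)) i (i + 1) (by omega) hi' (by omega)
      linarith)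
    (by
      rintro ⟨e, i, hi⟩
      simp only
      have hi' : i + 1 < (l e).length := by omega
      have m1 : (l e)[i] ∈ l e := List.getElem_mem _
      have m2 : (l e)[i + 1] ∈ l e := List.getElem_mem _
      have h3 := (List.pairwise_iff_getElem.1 (hlp e)) i (i + 1) (by omega) hi' (by omega)
      apply (hcont e).comp
      · apply Continuous.continuousOn
        unfold prm
        fun_prop
      · intro t ht
        have := prm_mem h3 ht
        exact ⟨(hlI e _ m1).1.trans this.1, this.2.trans (hlI e _ m2).2⟩)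
    (by
      rintro ⟨e, i, hi⟩
      simp only
      have hi' : i + 1 < (l e).length := by omega
      have m1 : (l e)[i] ∈ l e := List.getElem_mem _
      rw [hφv e _ m1]
      congr 1
      unfold prm
      ring)
    (by
      rintro ⟨e, i, hi⟩
      simp only
      have hi' : i + 1 < (l e).length := by omega
      have m2 : (l e)[i + 1] ∈ l e := List.getElem_mem _
      rw [hφv e _ m2]
      congr 1
      unfold prm
      ring)
    (by
      rintro ⟨e, i, hi⟩ x t ht hx
      simp only at hx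
      have hi' : i + 1 < (l e).length := by omega
      have m1 : (l e)[i] ∈ l e := List.getElem_mem _
      have m2 : (l e)[i + 1] ∈ l e := List.getElem_mem _
      have h3 := (List.pairwise_iff_getElem.1 (hlp e)) i (i + 1) (by omega) hi' (by omega)
      have h4 := prm_mem h3 ht
      have h5 := hZl e _ ⟨(hlI e _ m1).1.trans h4.1, h4.2.trans (hlI e _ m2).2⟩
        (by rw [hx]; exact x.2)
      rcases mem_between (hlp e) h5 hi' h4.1 h4.2 with h | h
      · exact Or.inl (prm_left h3 h)
      · exact Or.inr (prm_right h3 h))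
    (by
      rintro ⟨e, i, hi⟩ ⟨f, j, hj⟩ hef s hs t ht hx
      simp only at hx
      have hi' : i + 1 < (l e).length := by omega
      have hj' : j + 1 < (l f).length := by omega
      have m1 : (l e)[i] ∈ l e := List.getElem_mem _
      have m2 : (l e)[i + 1] ∈ l e := List.getElem_mem _
      have n1 : (l f)[j] ∈ l f := List.getElem_mem _
      have n2 : (l f)[j + 1] ∈ l f := List.getElem_mem _
      have h3 := (List.pairwise_iff_getElem.1 (hlp e)) i (i + 1) (by omega) hi' (by omega)
      have k3 := (List.pairwise_iff_getElem.1 (hlp f)) j (j + 1) (by omega) hj' (by omega)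
      have h4 := prm_mem h3 hs
      have k4 := prm_mem k3 ht
      have h5 : prm (l e)[i] (l e)[i + 1] s ∈ Set.Icc (0 : ℝ) 1 :=
        ⟨(hlI e _ m1).1.trans h4.1, h4.2.trans (hlI e _ m2).2⟩
      have k5 : prm (l f)[j] (l f)[j + 1] t ∈ Set.Icc (0 : ℝ) 1 :=
        ⟨(hlI f _ n1).1.trans k4.1, k4.2.trans (hlI f _ n2).2⟩
      by_cases hef' : e = f
      · subst hef'
        have h6 := hγ e h5 k5 hx
        have hij : i ≠ j := by
          intro h
          subst h
          exact hef rfl
        rcases Nat.lt_or_ge i j with h | h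
        · -- i < j
          have h7 : (l e)[i + 1] ≤ (l e)[j] := by
            rcases Nat.lt_or_ge (i + 1) j with h' | h'
            · exact ((List.pairwise_iff_getElem.1 (hlp e)) (i + 1) j hi' (by omega) h').le
            · have : j = i + 1 := by omega
              subst this
              exact le_rfl
          right
          apply prm_right h3
          linarith [h4.2, k4.1]
        · have h7 : (l e)[j + 1] ≤ (l e)[i] := by
            rcases Nat.lt_or_ge (j + 1) i with h' | h'
            · exact ((List.pairwise_iff_getElem.1 (hlp e)) (j + 1) i hj' (by omega) h').le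
            · have : i = j + 1 := by omega
              subst this
              exact le_rfl
          left
          apply prm_left h3
          linarith [h4.1, k4.2]
      · have h6 := hint e f hef' _ h5 _ k5 hx
        rcases mem_between (hlp e) h6 hi' h4.1 h4.2 with h | h
        · exact Or.inl (prm_left h3 h)
        · exact Or.inr (prm_right h3 h))
  -- the paths
  set pE : E → List {z // z ∈ Z} := fun e => ((T e).sort (· ≤ ·)).map (φ e) with hpE
  set path : V → V → List {z // z ∈ Z} := fun u v =>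
    if h : ∃ e, src e = u ∧ tgt e = v then pE h.choose
    else if h : ∃ e, src e = v ∧ tgt e = u then (pE h.choose).reverse else [] with hpath
  have hne : ∀ e, src e ≠ tgt e := fun e => (hst e).ne
  have hp1 : ∀ e, path (src e) (tgt e) = pE e := by
    intro e
    have hex : ∃ e', src e' = src e ∧ tgt e' = tgt e := ⟨e, rfl, rfl⟩
    have : path (src e) (tgt e) = pE hex.choose := by
      rw [hpath]
      simp only [hex, dif_pos]
    rw [this]
    congr 1
    apply hinj
    rw [hex.choose_spec.1, hex.choose_spec.2]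
  have hp2 : ∀ e, path (tgt e) (src e) = (pE e).reverse := by
    intro e
    have hex : ∃ e', src e' = src e ∧ tgt e' = tgt e := ⟨e, rfl, rfl⟩
    have hnex : ¬ ∃ e', src e' = tgt e ∧ tgt e' = src e := by
      rintro ⟨e', h1, h2⟩
      have : e' = e := by
        apply hinj
        rw [h1, h2]
        exact Sym2.eq_swap
      subst this
      exact hne e' h1
    have : path (tgt e) (src e) = (pE hex.choose).reverse := by
      rw [hpath]
      simp only [hnex, dif_neg, not_false_eq_true]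
      rw [dif_pos hex]
    rw [this]
    congr 2
    apply hinj
    rw [hex.choose_spec.1, hex.choose_spec.2]
  have hor : ∀ u v, G.Adj u v → ∃ e, (src e = u ∧ tgt e = v) ∨ (src e = v ∧ tgt e = u) := by
    intro u v huv
    obtain ⟨e, he⟩ := hsurj u v huv
    refine ⟨e, ?_⟩
    rw [Sym2.eq_iff] at he
    exact he
  set ι : V → {z // z ∈ Z} := fun v => ⟨pos v, hposZ v⟩ with hι
  have hφ0 : ∀ e, φ e 0 = ι (src e) := by
    intro e
    apply Subtype.ext
    rw [hφv e 0 ((hlm e 0).2 (Or.inl rfl)), h0]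
  have hφ1 : ∀ e, φ e 1 = ι (tgt e) := by
    intro e
    apply Subtype.ext
    rw [hφv e 1 ((hlm e 1).2 (Or.inr (Or.inr rfl))), h1]
  have hpEnot : ∀ e, ∀ x ∈ pE e, x ∉ Set.range ι := by
    rintro e x hx ⟨w, hw⟩
    rw [hpE] at hx
    simp only [List.mem_map, Finset.mem_sort] at hx
    obtain ⟨t, ht, htx⟩ := hx
    have ht' := ((hTm e t).1 ht).1
    have h4 : γ e t = pos w := by
      rw [← hφv e t ((hlm e t).2 (Or.inr (Or.inl ht))), htx, ← hw]
    rcases hav e w t ⟨ht'.1.le, ht'.2.le⟩ h4 with h | h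
    · rw [h] at ht'; exact lt_irrefl _ ht'.1
    · rw [h] at ht'; exact lt_irrefl _ ht'.2
  have hchain : ∀ e, List.IsChain M.Adj (ι (src e) :: (pE e ++ [ι (tgt e)])) := by
    intro e
    have heq : ι (src e) :: (pE e ++ [ι (tgt e)]) = (l e).map (φ e) := by
      rw [hl]
      simp only [List.map_cons, List.map_append, List.map_nil]
      rw [hφ0, hφ1]
    rw [heq, List.isChain_iff_getElem]
    intro i hi
    rw [List.length_map] at hi
    simp only [List.getElem_map]
    exact hM ⟨e, ⟨i, by omega⟩⟩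
  refine ⟨{z // z ∈ Z}, D, inferInstance, hD, M, ι, path, ?_, ?_, ?_⟩
  · intro u v huv
    exact hpos (congrArg Subtype.val huv)
  · intro u v huv
    obtain ⟨e, ⟨rfl, rfl⟩ | ⟨rfl, rfl⟩⟩ := hor u v huv
    · rw [hp1, hp2]
      refine ⟨?_, hpEnot e, rfl, hchain e⟩
      rw [hpE]
      simp only [List.length_map, Finset.length_sort]
      exact hTc e
    · rw [hp1, hp2]
      refine ⟨?_, ?_, (List.reverse_reverse _).symm, ?_⟩
      · rw [List.length_reverse, hpE]
        simp only [List.length_map, Finset.length_sort]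
        exact hTc e
      · intro x hx
        exact hpEnot e x (List.mem_reverse.1 hx)
      · have h := hchain e
        rw [← List.isChain_reverse] at h
        have h' : List.IsChain M.Adj (ι (src e) :: (pE e ++ [ι (tgt e)])).reverse := by
          refine List.IsChain.imp ?_ h
          intro a b hab
          exact adj_symm hab
        have heq : (ι (src e) :: (pE e ++ [ι (tgt e)])).reverse =
            ι (tgt e) :: ((pE e).reverse ++ [ι (src e)]) := by
          simp
        rw [heq] at h'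
        exact h'
  · intro x hx
    have hx' : (x : ℝ × ℝ) ∉ Set.range pos := by
      rintro ⟨v, hv⟩
      exact hx ⟨v, Subtype.ext hv⟩
    have hsub : {e : Sym2 V | ∃ u v, e = s(u, v) ∧ G.Adj u v ∧ x ∈ path u v} ⊆
        (fun e => s(src e, tgt e)) '' {e | (x : ℝ × ℝ) ∈ γ e '' Set.Icc (0 : ℝ) 1} := by
      rintro _ ⟨u, v, rfl, huv, hxp⟩
      obtain ⟨e, he⟩ := hor u v huv
      have hxe : x ∈ pE e := by
        rcases he with ⟨rfl, rfl⟩ | ⟨rfl, rfl⟩
        · rwa [hp1] at hxp
        · rw [hp2] at hxp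
          exact List.mem_reverse.1 hxp
      rw [hpE] at hxe
      simp only [List.mem_map, Finset.mem_sort] at hxe
      obtain ⟨t, ht, htx⟩ := hxe
      have ht' := ((hTm e t).1 ht).1
      refine ⟨e, ⟨t, ⟨ht'.1.le, ht'.2.le⟩, ?_⟩, ?_⟩
      · rw [← hφv e t ((hlm e t).2 (Or.inr (Or.inl ht))), htx]
      · rcases he with ⟨rfl, rfl⟩ | ⟨rfl, rfl⟩
        · rfl
        · exact Sym2.eq_swap
    calc Set.ncard _ ≤ Set.ncard ((fun e => s(src e, tgt e)) ''
          {e | (x : ℝ × ℝ) ∈ γ e '' Set.Icc (0 : ℝ) 1}) :=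
          Set.ncard_le_ncard hsub (Set.toFinite _)
      _ ≤ Set.ncard {e | (x : ℝ × ℝ) ∈ γ e '' Set.Icc (0 : ℝ) 1} :=
          Set.ncard_image_le (Set.toFinite _)
      _ ≤ 2 := h3 _ hx'

end

end Pool.Agent.Lib.MP_1fca17_co.T.Chain21
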