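import Mathlib
import Pool.Agent.Lib.MP_1fca17_co.Q.Defs

/-!
# MP_1fca17_co : the cylinder grid is a plane map
-/

namespace Pool.Agent.Lib.MP_1fca17_co.T.Grid99

open Finset
open scoped Classical
open Pool.Agent.Lib.MP_1fca17_co.Q (PlaneMap)

noncomputable section

/-- number of cycles from a complete invariant -/
theorem card_cycles {D F : Type} (p : Equiv.Perm D) (f : D → F) (hs : Function.Surjective f)
    (h : ∀ d d', p.SameCycle d d' ↔ f d = f d') :
    Nat.card (Quotient (Equiv.Perm.SameCycle.setoid p)) = Nat.card F := by
  refine Nat.card_eq_of_bijective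
    (Quotient.lift f (fun a b hab => (h a b).1 hab)) ⟨?_, ?_⟩
  · intro a b
    induction a using Quotient.inductionOn with
    | h a =>
    induction b using Quotient.inductionOn with
    | h b =>
    intro hab
    exact Quotient.sound ((h a b).2 hab)
  · intro x
    obtain ⟨d, hd⟩ := hs x
    exact ⟨Quotient.mk _ d, hd⟩

/-- the darts of the grid: horizontal ones (tail, east or west) and vertical ones
(row of squares, north or south) -/
abbrev GD (n m : ℕ) : Type := (ZMod n × Fin (m + 1) × Bool) ⊕ (ZMod n × Fin m × Bool)

/-- the vertices -/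
abbrev GX (n m : ℕ) : Type := ZMod n × Fin (m + 1)

/-- the faces -/
abbrev GF (n m : ℕ) : Type := (ZMod n × Fin m) ⊕ Bool

variable {n m : ℕ}

def gvert : GD n m → GX n m
  | .inl (i, j, _) => (i, j)
  | .inr (i, j, true) => (i, j.castSucc)
  | .inr (i, j, false) => (i, j.succ)

def galpha : GD n m → GD n m
  | .inl (i, j, true) => .inl (i + 1, j, false)
  | .inl (i, j, false) => .inl (i - 1, j, true)
  | .inr (i, j, b) => .inr (i, j, !b)

/-- north of a vertex, if there is one, otherwise `d` -/
def north (i : ZMod n) (j : Fin (m + 1)) (d : GD n m) : GD n m :=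
  if h : j = Fin.last m then d else .inr (i, j.castPred h, true)

/-- south of a vertex, if there is one, otherwise `d` -/
def south (i : ZMod n) (j : Fin (m + 1)) (d : GD n m) : GD n m :=
  if h : j = 0 then d else .inr (i, j.pred h, false)

def gsig : GD n m → GD n m
  | .inl (i, j, true) => north i j (.inl (i, j, false))
  | .inl (i, j, false) => south i j (.inl (i, j, true))
  | .inr (i, j, true) => .inl (i, j.castSucc, false)
  | .inr (i, j, false) => .inl (i, j.succ, true)

def gsiginv : GD n m → GD n m
  | .inl (i, j, false) => north i j (.inl (i, j, true))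
  | .inl (i, j, true) => south i j (.inl (i, j, false))
  | .inr (i, j, true) => .inl (i, j.castSucc, true)
  | .inr (i, j, false) => .inl (i, j.succ, false)

theorem gsig_left (d : GD n m) : gsiginv (gsig d) = d := by
  rcases d with ⟨i, j, b⟩ | ⟨i, j, b⟩
  · cases b
    · by_cases h : j = 0
      · simp [gsig, gsiginv, south, h]
      · simp [gsig, gsiginv, south, h]
    · by_cases h : j = Fin.last m
      · simp [gsig, gsiginv, north, h]
      · simp [gsig, gsiginv, north, h]
  · cases b
    · simp [gsig, gsiginv, south]
    · simp [gsig, gsiginv, north]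

theorem gsig_right (d : GD n m) : gsig (gsiginv d) = d := by
  rcases d with ⟨i, j, b⟩ | ⟨i, j, b⟩
  · cases b
    · by_cases h : j = Fin.last m
      · simp [gsig, gsiginv, north, h]
      · simp [gsig, gsiginv, north, h]
    · by_cases h : j = 0
      · simp [gsig, gsiginv, south, h]
      · simp [gsig, gsiginv, south, h]
  · cases b
    · simp [gsig, gsiginv, south]
    · simp [gsig, gsiginv, north]

theorem galpha_invol (d : GD n m) : galpha (galpha d) = d := by
  rcases d with ⟨i, j, b⟩ | ⟨i, j, b⟩ <;> cases b <;> simp [galpha]

def gS : Equiv.Perm (GD n m) := ⟨gsig, gsiginv, gsig_left, gsig_right⟩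

def gA : Equiv.Perm (GD n m) := ⟨galpha, galpha, galpha_invol, galpha_invol⟩

@[simp] theorem gS_apply (d : GD n m) : gS d = gsig d := rfl
@[simp] theorem gA_apply (d : GD n m) : gA d = galpha d := rfl

theorem gvert_gsig (d : GD n m) : gvert (gsig d) = gvert d := by
  rcases d with ⟨i, j, b⟩ | ⟨i, j, b⟩
  · cases b
    · by_cases h : j = 0
      · simp [gsig, gvert, south, h]
      · simp [gsig, gvert, south, h]
    · by_cases h : j = Fin.last m
      · simp [gsig, gvert, north, h]
      · simp [gsig, gvert, north, h]
  · cases b
    · simp [gsig, gvert]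
    · simp [gsig, gvert]

theorem inv_zpow {D F : Type} (p : Equiv.Perm D) (f : D → F) (h : ∀ d, f (p d) = f d)
    (k : ℤ) (d : D) : f ((p ^ k) d) = f d := by
  induction k using Int.induction_on generalizing d with
  | zero => simp
  | succ k ih => rw [zpow_add_one, Equiv.Perm.mul_apply, ih, h]
  | pred k ih =>
      rw [zpow_sub_one, Equiv.Perm.mul_apply, ih]
      conv_rhs => rw [← Equiv.apply_symm_apply p d, h]
      rfl

theorem inv_same {D F : Type} (p : Equiv.Perm D) (f : D → F) (h : ∀ d, f (p d) = f d)
    {d d' : D} (hd : p.SameCycle d d') : f d = f d' := by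
  obtain ⟨k, hk⟩ := hd
  rw [← hk, inv_zpow p f h]

theorem same_step {D : Type} (p : Equiv.Perm D) (d : D) : p.SameCycle d (p d) :=
  ⟨1, by simp⟩

/-- every dart is in the same vertex cycle as the east dart -/
theorem same_east (d : GD n m) :
    gS.SameCycle d (.inl ((gvert d).1, (gvert d).2, true)) := by
  rcases d with ⟨i, j, b⟩ | ⟨i, j, b⟩
  · cases b
    · by_cases h : j = 0
      · have := same_step gS (.inl (i, j, false) : GD n m)
        simpa [gsig, south, h, gvert] using this
      · have h1 := same_step gS (.inl (i, j, false) : GD n m)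
        have h2 := same_step gS (.inr (i, j.pred h, false) : GD n m)
        simp only [gS_apply, gsig, south, h, dif_neg, not_false_eq_true] at h1 h2
        have h3 := h1.trans h2
        simpa [gvert] using h3
    · exact Equiv.Perm.SameCycle.refl _ _
  · cases b
    · have h1 := same_step gS (.inr (i, j, false) : GD n m)
      simpa [gsig, gvert] using h1
    · have h1 := same_step gS (.inl (i, j.castSucc, true) : GD n m)
      have h2 : gsig (.inl (i, j.castSucc, true) : GD n m) = .inr (i, j, true) := by
        simp [gsig, north]
      rw [gS_apply, h2] at h1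
      exact h1.symm

theorem gorbit (d d' : GD n m) : gvert d = gvert d' ↔ gS.SameCycle d d' := by
  constructor
  · intro h
    have h1 := same_east d
    have h2 := same_east d'
    rw [h] at h1
    exact h1.trans h2.symm
  · intro h
    exact inv_same gS gvert gvert_gsig h

/-- the face of a dart -/
def gface : GD n m → GF n m
  | .inl (i, j, true) => if h : j = 0 then .inr false else .inl (i, j.pred h)
  | .inl (i, j, false) => if h : j = Fin.last m then .inr true else .inl (i - 1, j.castPred h)
  | .inr (i, j, true) => .inl (i, j)
  | .inr (i, j, false) => .inl (i - 1, j)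

theorem gface_phi (d : GD n m) : gface (gsig (galpha d)) = gface d := by
  rcases d with ⟨i, j, b⟩ | ⟨i, j, b⟩
  · cases b
    · by_cases h : j = Fin.last m
      · simp [galpha, gsig, gface, north, h]
      · simp [galpha, gsig, gface, north, h]
    · by_cases h : j = 0
      · simp [galpha, gsig, gface, south, h]
      · simp [galpha, gsig, gface, south, h]
  · cases b
    · simp [galpha, gsig, gface]
    · simp [galpha, gsig, gface]

/-- representative of a face -/
def grep : GF n m → GD n m
  | .inl (i, j) => .inr (i, j, true)
  | .inr false => .inl (0, 0, true)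
  | .inr true => .inl (0, Fin.last m, false)

theorem gface_grep (x : GF n m) : gface (grep x) = x := by
  rcases x with ⟨i, j⟩ | b
  · simp [gface, grep]
  · cases b <;> simp [gface, grep]

theorem phi_bot (k : ℕ) : ((gS * gA : Equiv.Perm (GD n m)) ^ k) (.inl (0, 0, true)) =
    .inl ((k : ZMod n), 0, true) := by
  induction k with
  | zero => simp
  | succ k ih =>
      rw [pow_succ', Equiv.Perm.mul_apply, ih]
      simp [galpha, gsig, south]

theorem phi_top (k : ℕ) : ((gS * gA : Equiv.Perm (GD n m)) ^ k) (.inl (0, Fin.last m, false)) =
    .inl (-(k : ZMod n), Fin.last m, false) := by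
  induction k with
  | zero => simp
  | succ k ih =>
      rw [pow_succ', Equiv.Perm.mul_apply, ih]
      simp [galpha, gsig, north]
      ring

theorem same_grep [NeZero n] (d : GD n m) :
    (gS * gA : Equiv.Perm (GD n m)).SameCycle (grep (gface d)) d := by
  have key : ∀ d : GD n m, (gS * gA : Equiv.Perm (GD n m)).SameCycle d (gsig (galpha d)) :=
    fun d => ⟨1, by simp⟩
  -- the four darts of a square
  have sq1 : ∀ (i : ZMod n) (j : Fin m), (gS * gA : Equiv.Perm (GD n m)).SameCycle
      (.inr (i, j, true)) (.inl (i, j.succ, true)) := by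
    intro i j
    have := key (.inr (i, j, true))
    simpa [galpha, gsig] using this
  have sq2 : ∀ (i : ZMod n) (j : Fin m), (gS * gA : Equiv.Perm (GD n m)).SameCycle
      (.inl (i, j.succ, true)) (.inr (i + 1, j, false)) := by
    intro i j
    have := key (.inl (i, j.succ, true))
    simpa [galpha, gsig, south] using this
  have sq3 : ∀ (i : ZMod n) (j : Fin m), (gS * gA : Equiv.Perm (GD n m)).SameCycle
      (.inr (i, j, false)) (.inl (i, j.castSucc, false)) := by
    intro i j
    have := key (.inr (i, j, false))
    simpa [galpha, gsig] using this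
  have a1 : ∀ (i : ZMod n) (j : Fin m), (gS * gA : Equiv.Perm (GD n m)).SameCycle
      (.inr (i - 1, j, true)) (.inr (i, j, false)) := by
    intro i j
    have := (sq1 (i - 1) j).trans (sq2 (i - 1) j)
    simpa using this
  rcases d with ⟨i, j, b⟩ | ⟨i, j, b⟩
  · cases b
    · by_cases h : j = Fin.last m
      · subst h
        simp only [gface, dif_pos, grep]
        refine ⟨((-i).val : ℕ), ?_⟩
        rw [zpow_natCast, phi_top]
        simp
      · simp only [gface, h, dif_neg, not_false_eq_true, grep]
        have := (a1 i (j.castPred h)).trans (sq3 i (j.castPred h))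
        simpa using this
    · by_cases h : j = 0
      · subst h
        simp only [gface, dif_pos, grep]
        refine ⟨(i.val : ℕ), ?_⟩
        rw [zpow_natCast, phi_bot]
        simp
      · simp only [gface, h, dif_neg, not_false_eq_true, grep]
        have := sq1 i (j.pred h)
        simpa using this
  · cases b
    · simpa [gface, grep] using a1 i j
    · simpa [gface, grep] using Equiv.Perm.SameCycle.refl _ _

theorem gfaces [NeZero n] (d d' : GD n m) :
    (gS * gA : Equiv.Perm (GD n m)).SameCycle d d' ↔ gface d = gface d' := by
  constructor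
  · intro h
    exact inv_same _ gface (fun d => gface_phi d) h
  · intro h
    have h1 := same_grep d
    have h2 := same_grep d'
    rw [h] at h1
    exact h1.symm.trans h2

/-- one step in the grid -/
def gstep (a b : GX n m) : Prop := ∃ d : GD n m, gvert d = a ∧ gvert (gA d) = b

theorem gstep_symm {a b : GX n m} (h : gstep a b) : gstep b a := by
  obtain ⟨d, h1, h2⟩ := h
  refine ⟨galpha d, h2, ?_⟩
  rw [gA_apply, galpha_invol]
  exact h1

theorem gstep_h (i : ZMod n) (j : Fin (m + 1)) : gstep (i, j) (i + 1, j) :=
  ⟨.inl (i, j, true), rfl, rfl⟩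

theorem gstep_v (i : ZMod n) (j : Fin m) : gstep (i, j.castSucc) (i, j.succ) :=
  ⟨.inr (i, j, true), rfl, rfl⟩

theorem greach [NeZero n] (x : GX n m) : Relation.ReflTransGen gstep (0, 0) x := by
  obtain ⟨i, j⟩ := x
  have h1 : ∀ k : ℕ, Relation.ReflTransGen (gstep (n := n) (m := m)) (0, 0)
      ((k : ZMod n), 0) := by
    intro k
    induction k with
    | zero => simp only [Nat.cast_zero]; exact Relation.ReflTransGen.refl
    | succ k ih =>
        refine ih.tail ?_
        rw [Nat.cast_succ]
        exact gstep_h _ _
  have h2 : Relation.ReflTransGen (gstep (n := n) (m := m)) (0, 0) (i, 0) := by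
    have := h1 i.val
    simpa using this
  induction j using Fin.induction with
  | zero => exact h2
  | succ j ih => exact ih.tail (gstep_v i j)

theorem gconn [NeZero n] (x y : GX n m) : Relation.ReflTransGen gstep x y := by
  have hx := greach x
  have hy := greach y
  have hx' : Relation.ReflTransGen gstep x (0, 0) := by
    clear hy
    induction hx with
    | refl => exact Relation.ReflTransGen.refl
    | tail _ h ih => exact Relation.ReflTransGen.head (gstep_symm h) ih
  exact hx'.trans hy

/-- the cylinder grid -/
def grid (n m : ℕ) [NeZero n] : PlaneMap (GX n m) (GD n m) where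
  vert := gvert
  σ := gS
  α := gA
  invol := galpha_invol
  nofix := by
    intro d
    rcases d with ⟨i, j, b⟩ | ⟨i, j, b⟩ <;> cases b <;> simp [galpha]
  surj := fun x => ⟨.inl (x.1, x.2, true), rfl⟩
  orbit := gorbit
  conn := gconn
  euler := by
    rw [card_cycles (gS * gA : Equiv.Perm (GD n m)) gface
      (fun x => ⟨grep x, gface_grep x⟩) gfaces, Nat.card_eq_fintype_card]
    simp only [Fintype.card_prod, Fintype.card_sum, ZMod.card, Fintype.card_fin,
      Fintype.card_bool]
    ring

theorem grid_adj_h [NeZero n] (i : ZMod n) (j : Fin (m + 1)) :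
    (grid n m).Adj (i, j) (i + 1, j) := gstep_h i j

theorem grid_adj_v [NeZero n] (i : ZMod n) (j : Fin m) :
    (grid n m).Adj (i, j.castSucc) (i, j.succ) := gstep_v i j

end

end Pool.Agent.Lib.MP_1fca17_co.T.Grid99
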