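import Pool.Agent.Lib.MP_1fca17_co.Q.Defs

/-!
MP_1fca17_co, topological bridge: identification of adjacent vertices of a plane map, and
contraction of connected sets of vertices (helper52).
-/

namespace Pool.Agent.Lib.MP_1fca17_co.T52

open Finset Equiv Equiv.Perm
open Pool.Agent.Lib.MP_1fca17_co.Q

/-- invariance along cycles -/
theorem sameCycle_inv_of {D Y : Type} (f : Perm D) (g : D → Y) (h : ∀ x, g (f x) = g x) {x y : D}
    (hs : SameCycle f x y) : g x = g y := by
  have h1 : ∀ n : ℕ, ∀ x, g ((f ^ n) x) = g x := by
    intro n
    induction n with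
    | zero => intro x; rfl
    | succ n ih => intro x; rw [pow_succ, Perm.mul_apply, ih, h]
  obtain ⟨i, hi⟩ := hs
  rcases i with n | n
  · rw [← hi]; exact (h1 n x).symm
  · have : (f ^ (n + 1)) y = x := by
      rw [← hi, zpow_negSucc]; simp
    rw [← this]; exact h1 (n + 1) y

/-- a relation which holds between `x` and `f x` holds along cycles -/
theorem sameCycle_rel {D : Type} [Finite D] (f : Perm D) (r : D → D → Prop) (hr : ∀ x, r x x)
    (ht : ∀ x y z, r x y → r y z → r x z) (h : ∀ x, r x (f x)) {x y : D}
    (hs : SameCycle f x y) : r x y := by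
  obtain ⟨n, hn⟩ := hs.exists_nat_pow_eq
  rw [← hn]
  clear hn hs y
  induction n with
  | zero => exact hr x
  | succ n ih =>
    rw [pow_succ', Perm.mul_apply]
    exact ht _ _ _ ih (h _)

section merge

variable {D : Type} [Finite D] [DecidableEq D] (σ : Perm D) (a b : D)

/-- multiplication by a transposition merges two cycles -/
theorem merge_ab (hab : ¬SameCycle σ a b) : SameCycle (swap a b * σ) a b := by
  -- first return to `a`
  have hex : ∃ p : ℕ, 0 < p ∧ (σ ^ p) a = a :=
    ⟨orderOf σ, orderOf_pos σ, by rw [pow_orderOf_eq_one]; rfl⟩
  classical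
  set p := Nat.find hex with hp
  obtain ⟨hp0, hpa⟩ := Nat.find_spec hex
  have hmin : ∀ i, 0 < i → i < p → (σ ^ i) a ≠ a := by
    intro i h0 h1 h2
    exact Nat.find_min hex h1 ⟨h0, h2⟩
  have hstep : ∀ i, i < p → ((swap a b * σ) ^ i) a = (σ ^ i) a := by
    intro i
    induction i with
    | zero => intro _; rfl
    | succ i ih =>
      intro hi
      rw [pow_succ', Perm.mul_apply, ih (by omega), Perm.mul_apply, pow_succ', Perm.mul_apply]
      have h1 : σ ((σ ^ i) a) = (σ ^ (i + 1)) a := by rw [pow_succ', Perm.mul_apply]
      rw [swap_apply_of_ne_of_ne]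
      · rw [h1]; exact hmin (i + 1) (by omega) hi
      · intro hb
        apply hab
        rw [← hb, h1]
        exact sameCycle_pow_right.mpr SameCycle.rfl
  have hlast : ((swap a b * σ) ^ p) a = b := by
    obtain ⟨q, hq⟩ : ∃ q, p = q + 1 := ⟨p - 1, by omega⟩
    rw [hq, pow_succ', Perm.mul_apply, hstep q (by omega), Perm.mul_apply]
    have h1 : σ ((σ ^ q) a) = a := by
      have := hpa
      rw [← hp, hq, pow_succ', Perm.mul_apply] at this
      exact this
    rw [h1, swap_apply_left]
  exact ⟨p, by exact_mod_cast hlast⟩

theorem merge_of (hab : ¬SameCycle σ a b) {x y : D} (h : SameCycle σ x y) :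
    SameCycle (swap a b * σ) x y := by
  refine sameCycle_rel σ (SameCycle (swap a b * σ)) (fun x => SameCycle.rfl)
    (fun x y z h1 h2 => h1.trans h2) ?_ h
  intro x
  have key := merge_ab σ a b hab
  have h1 : SameCycle (swap a b * σ) x (swap a b (σ x)) :=
    (sameCycle_apply_right (f := swap a b * σ)).mpr SameCycle.rfl
  by_cases h2 : σ x = a
  · rw [h2, swap_apply_left] at h1
    rw [h2]; exact h1.trans key.symm
  · by_cases h3 : σ x = b
    · rw [h3, swap_apply_right] at h1
      rw [h3]; exact h1.trans key
    · rwa [swap_apply_of_ne_of_ne h2 h3] at h1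

end merge

section split

variable {D : Type} [Finite D] [DecidableEq D] (φ : Perm D) (a : D)

omit [Finite D] in
/-- the permutation in which `a` becomes a fixed point -/
theorem split_fix : (swap a (φ a) * φ) a = a := by
  rw [Perm.mul_apply, swap_apply_right]

theorem split_to {x y : D} (h : SameCycle (swap a (φ a) * φ) x y) : SameCycle φ x y := by
  refine sameCycle_rel (swap a (φ a) * φ) (SameCycle φ) (fun x => SameCycle.rfl)
    (fun x y z h1 h2 => h1.trans h2) ?_ h
  intro x
  rw [Perm.mul_apply]
  have h0 : SameCycle φ x (φ x) := sameCycle_apply_right.mpr SameCycle.rfl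
  have h1 : SameCycle φ a (φ a) := sameCycle_apply_right.mpr SameCycle.rfl
  by_cases h2 : φ x = a
  · rw [h2, swap_apply_left]; rw [h2] at h0; exact h0.trans h1
  · by_cases h3 : φ x = φ a
    · rw [h3, swap_apply_right]; rw [h3] at h0; exact h0.trans h1.symm
    · rwa [swap_apply_of_ne_of_ne h2 h3]

theorem split_from (hfa : φ a ≠ a) {x y : D} (hx : x ≠ a) (hy : y ≠ a) (h : SameCycle φ x y) :
    SameCycle (swap a (φ a) * φ) x y := by
  obtain ⟨n, hn⟩ := h.exists_nat_pow_eq
  have key : ∀ n : ℕ, ∀ x, x ≠ a → (φ ^ n) x = y → SameCycle (swap a (φ a) * φ) x y := by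
    intro n
    induction n using Nat.strong_induction_on with
    | _ n ih =>
      intro x hx hn
      rcases n with _ | n
      · change x = y at hn
        rw [hn]
      · rw [pow_succ, Perm.mul_apply] at hn
        have h1 : SameCycle (swap a (φ a) * φ) x (swap a (φ a) (φ x)) :=
          (sameCycle_apply_right (f := swap a (φ a) * φ)).mpr SameCycle.rfl
        by_cases h2 : φ x = a
        · rw [h2] at hn
          rcases n with _ | n
          · exact absurd hn.symm hy
          · rw [pow_succ, Perm.mul_apply] at hn
            rw [h2, swap_apply_left] at h1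
            exact h1.trans (ih n (by omega) _ hfa hn)
        · have h3 : φ x ≠ φ a := fun hc => hx (φ.injective hc)
          rw [swap_apply_of_ne_of_ne h2 h3] at h1
          exact h1.trans (ih n (by omega) _ h2 hn)
  exact key n x hx hn

/-- the number of cycles grows by one -/
theorem split_card (hfa : φ a ≠ a) :
    Nat.card (Quotient (SameCycle.setoid (swap a (φ a) * φ))) =
      Nat.card (Quotient (SameCycle.setoid φ)) + 1 := by
  classical
  have hlift : ∀ x y : D, (SameCycle.setoid (swap a (φ a) * φ)) x y →
      (if x = a then (none : Option (Quotient (SameCycle.setoid φ))) else some ⟦x⟧) =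
        if y = a then none else some ⟦y⟧ := by
    intro x y h
    have hs : SameCycle (swap a (φ a) * φ) x y := h
    by_cases hx : x = a
    · have : x = y := by
        apply hs.eq_of_left
        rw [hx]; exact split_fix φ a
      rw [← this]
    · by_cases hy : y = a
      · exfalso
        apply hx
        have : x = y := by
          apply hs.eq_of_right
          rw [hy]; exact split_fix φ a
        rw [this, hy]
      · rw [if_neg hx, if_neg hy]
        exact congrArg some (Quotient.sound (split_to φ a hs))
  set f : Quotient (SameCycle.setoid (swap a (φ a) * φ)) →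
      Option (Quotient (SameCycle.setoid φ)) :=
    Quotient.lift (fun x => if x = a then none else some ⟦x⟧) hlift with hf
  have hbij : Function.Bijective f := by
    constructor
    · intro q1 q2
      induction q1 using Quotient.inductionOn with
      | _ x =>
      induction q2 using Quotient.inductionOn with
      | _ y =>
      intro h
      simp only [hf, Quotient.lift_mk] at h
      by_cases hx : x = a
      · by_cases hy : y = a
        · rw [hx, hy]
        · rw [if_pos hx, if_neg hy] at h
          exact absurd h (by simp)
      · by_cases hy : y = a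
        · rw [if_neg hx, if_pos hy] at h
          exact absurd h (by simp)
        · rw [if_neg hx, if_neg hy] at h
          have h2 : SameCycle φ x y := Quotient.exact (Option.some.inj h)
          exact Quotient.sound (split_from φ a hfa hx hy h2)
    · intro o
      rcases o with _ | q
      · exact ⟨⟦a⟧, by simp [hf]⟩
      · induction q using Quotient.inductionOn with
        | _ x =>
        by_cases hx : x = a
        · refine ⟨⟦φ a⟧, ?_⟩
          simp only [hf, Quotient.lift_mk, if_neg hfa]
          refine congrArg some (Quotient.sound ?_)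
          change SameCycle φ (φ a) x
          rw [hx]
          exact sameCycle_apply_left.mpr SameCycle.rfl
        · exact ⟨⟦x⟧, by simp only [hf, Quotient.lift_mk, if_neg hx]⟩
  rw [Nat.card_eq_of_bijective f hbij]
  exact Finite.card_option

end split

/-- identification of the two ends of the dart `d` -/
theorem ident {X D : Type} [Fintype X] [Fintype D] (M : PlaneMap X D) (d : D)
    (h : M.vert d ≠ M.vert (M.α d)) :
    ∃ (X' : Type) (_ : Fintype X') (M' : PlaneMap X' D) (π : X → X'), Function.Surjective π ∧
      Fintype.card X' + 1 = Fintype.card X ∧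
      (∀ e, M'.vert e = π (M.vert e)) ∧ M'.α = M.α ∧
      ∀ x y, π x = π y → x = y ∨ ((x = M.vert d ∨ x = M.vert (M.α d)) ∧
        (y = M.vert d ∨ y = M.vert (M.α d))) := by
  classical
  set u := M.vert d with hu
  set v := M.vert (M.α d) with hv
  set b := M.σ (M.α d) with hb
  have hvσ : ∀ e, M.vert (M.σ e) = M.vert e := by
    intro e
    rw [M.orbit]
    exact sameCycle_apply_left.mpr SameCycle.rfl
  have hvb : M.vert b = v := hvσ _
  set π : X → {x : X // x ≠ v} := fun x => if hx : x = v then ⟨u, h⟩ else ⟨x, hx⟩ with hπ
  have hπu : π u = ⟨u, h⟩ := by simp only [hπ]; rw [dif_neg h]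
  have hπv : π v = ⟨u, h⟩ := by simp [hπ]
  have hπx : ∀ x (hx : x ≠ v), π x = ⟨x, hx⟩ := by
    intro x hx; simp only [hπ]; rw [dif_neg hx]
  have hinj : ∀ x y, π x = π y → x = y ∨ ((x = u ∨ x = v) ∧ (y = u ∨ y = v)) := by
    intro x y hxy
    by_cases hx : x = v
    · by_cases hy : y = v
      · left; rw [hx, hy]
      · right
        rw [hx, hπv, hπx y hy] at hxy
        have := congrArg Subtype.val hxy
        exact ⟨Or.inr hx, Or.inl this.symm⟩
    · by_cases hy : y = v
      · right
        rw [hy, hπv, hπx x hx] at hxy
        have := congrArg Subtype.val hxy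
        exact ⟨Or.inl this, Or.inr hy⟩
      · left
        rw [hπx x hx, hπx y hy] at hxy
        exact congrArg Subtype.val hxy
  have hsur : Function.Surjective π := by
    rintro ⟨x, hx⟩
    exact ⟨x, hπx x hx⟩
  have hcard : Fintype.card {x : X // x ≠ v} + 1 = Fintype.card X := by
    have h1 := Fintype.card_subtype_compl (fun x : X => x = v)
    have h2 : Fintype.card {x : X // x = v} = 1 := Fintype.card_subtype_eq v
    have h3 : 0 < Fintype.card X := Fintype.card_pos_iff.mpr ⟨v⟩
    have h4 : Fintype.card {x : X // x ≠ v} = Fintype.card {x : X // ¬x = v} := rfl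
    omega
  have hab : ¬SameCycle M.σ d b := by
    rw [← M.orbit, hvb]
    exact h
  have hdb : d ≠ b := by
    intro hc
    apply hab
    rw [← hc]
  have hφ : (M.σ * M.α) d = b := rfl
  refine ⟨{x : X // x ≠ v}, inferInstance,
    { vert := fun e => π (M.vert e)
      σ := swap d b * M.σ
      α := M.α
      invol := M.invol
      nofix := M.nofix
      surj := hsur.comp M.surj
      orbit := ?_
      conn := ?_
      euler := ?_ }, π, hsur, hcard, fun _ => rfl, rfl, hinj⟩
  · intro e f
    constructor
    · intro hef
      rcases hinj _ _ hef with h1 | ⟨h1, h2⟩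
      · exact merge_of M.σ d b hab ((M.orbit e f).mp h1)
      · have key := merge_ab M.σ d b hab
        have hcase : ∀ e, (M.vert e = u ∨ M.vert e = v) → SameCycle (swap d b * M.σ) e d := by
          intro e he
          rcases he with he | he
          · exact merge_of M.σ d b hab ((M.orbit e d).mp he)
          · exact (merge_of M.σ d b hab ((M.orbit e b).mp (he.trans hvb.symm))).trans key.symm
        exact (hcase e h1).trans (hcase f h2).symm
    · intro hs
      refine sameCycle_inv_of (swap d b * M.σ) (fun e => π (M.vert e)) ?_ hs
      intro e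
      simp only [Perm.mul_apply]
      by_cases h1 : M.σ e = d
      · rw [h1, swap_apply_left, hvb]
        have h2 : M.vert e = u := by rw [← hvσ e, h1]
        rw [h2, hπv, hπu]
      · by_cases h2 : M.σ e = b
        · rw [h2, swap_apply_right]
          have h3 : M.vert e = v := by rw [← hvσ e, h2, hvb]
          rw [h3, hπv, ← hu, hπu]
        · rw [swap_apply_of_ne_of_ne h1 h2, hvσ]
  · intro x y
    obtain ⟨x, rfl⟩ := hsur x
    obtain ⟨y, rfl⟩ := hsur y
    have := M.conn x y
    induction this with
    | refl => exact Relation.ReflTransGen.refl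
    | tail _ h2 ih =>
      obtain ⟨e, he1, he2⟩ := h2
      exact ih.tail ⟨e, by rw [he1], by rw [he2]⟩
  · have h1 := M.euler
    have h2 := split_card (M.σ * M.α) d (by rw [hφ]; exact hdb.symm)
    have h3 : swap d b * M.σ * M.α = swap d ((M.σ * M.α) d) * (M.σ * M.α) := by
      rw [hφ, mul_assoc]
    have h4 : Fintype.card {x : X // x ≠ v} + 1 = Fintype.card X := hcard
    rw [h3, h2]
    omega

/-- contraction of the fibres of `c` (connected inside themselves) -/
theorem contract {Y D : Type} [Fintype Y] [Fintype D] :
    ∀ (n : ℕ) (X : Type) [Fintype X] (M : PlaneMap X D) (c : X → Y), Fintype.card X = n →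
      Function.Surjective c →
      (∀ x y, c x = c y → Relation.ReflTransGen (fun a b => M.Adj a b ∧ c a = c b) x y) →
      ∃ M' : PlaneMap Y D, (∀ d, M'.vert d = c (M.vert d)) ∧ M'.α = M.α := by
  intro n
  induction n with
  | zero =>
    intro X _ M c hn hs hf
    exfalso
    have h1 := M.euler
    have h2 : IsEmpty X := Fintype.card_eq_zero_iff.mp hn
    have h3 : IsEmpty D := ⟨fun d => h2.elim (M.vert d)⟩
    have h4 : IsEmpty (Quotient (SameCycle.setoid (M.σ * M.α))) :=
      ⟨fun q => by
        induction q using Quotient.inductionOn with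
        | _ d => exact h3.elim d⟩
    have h5 : Nat.card (Quotient (SameCycle.setoid (M.σ * M.α))) = 0 := Nat.card_of_isEmpty
    have h6 : Fintype.card D = 0 := Fintype.card_eq_zero_iff.mpr h3
    omega
  | succ n ih =>
    intro X _ M c hn hs hf
    by_cases hinj : Function.Injective c
    · -- transport along the bijection
      have hbij : Function.Bijective c := ⟨hinj, hs⟩
      refine ⟨{ vert := fun d => c (M.vert d)
                σ := M.σ
                α := M.α
                invol := M.invol
                nofix := M.nofix
                surj := hs.comp M.surj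
                orbit := ?_
                conn := ?_
                euler := ?_ }, fun _ => rfl, rfl⟩
      · intro d d'
        rw [hinj.eq_iff, M.orbit]
      · intro x y
        obtain ⟨x, rfl⟩ := hs x
        obtain ⟨y, rfl⟩ := hs y
        have := M.conn x y
        induction this with
        | refl => exact Relation.ReflTransGen.refl
        | tail _ h2 ih =>
          obtain ⟨e, he1, he2⟩ := h2
          exact ih.tail ⟨e, by rw [he1], by rw [he2]⟩
      · have := M.euler
        rw [Fintype.card_of_bijective hbij] at this
        exact this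
    · -- an edge inside a fibre
      have hex : ∃ a b, a ≠ b ∧ M.Adj a b ∧ c a = c b := by
        unfold Function.Injective at hinj
        push Not at hinj
        obtain ⟨x, y, hxy, hne⟩ := hinj
        have h1 := hf x y hxy
        by_contra hcon
        push Not at hcon
        have h2 : ∀ z, Relation.ReflTransGen (fun a b => M.Adj a b ∧ c a = c b) x z →
            x = z := by
          intro z hz
          induction hz with
          | refl => rfl
          | tail _ h3 ih =>
            rw [ih]
            by_contra hne2
            exact hcon _ _ hne2 h3.1 h3.2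
        exact hne (h2 y h1)
      obtain ⟨a, b, hab, ⟨d, hd1, hd2⟩, hc⟩ := hex
      obtain ⟨X1, _, M1, π, hπ, hcard, hv, hα, hπi⟩ := ident M d (by rw [hd1, hd2]; exact hab)
      -- the map on the quotient
      have hfac : ∀ x y, π x = π y → c x = c y := by
        intro x y hxy
        rcases hπi x y hxy with h1 | ⟨h1, h2⟩
        · rw [h1]
        · have e1 : c x = c a := by
            rcases h1 with h1 | h1
            · rw [h1, hd1]
            · rw [h1, hd2, hc]
          have e2 : c y = c a := by
            rcases h2 with h2 | h2
            · rw [h2, hd1]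
            · rw [h2, hd2, hc]
          rw [e1, e2]
      choose s hs' using hπ
      have hcs : ∀ x, c (s (π x)) = c x := fun x => hfac _ _ (hs' (π x))
      obtain ⟨M', h1, h2⟩ := ih X1 M1 (fun x => c (s x)) (by omega) (by
        intro y
        obtain ⟨x, rfl⟩ := hs y
        exact ⟨π x, hcs x⟩) (by
        intro x1 y1 hxy
        have h3 := hf (s x1) (s y1) hxy
        have h4 : ∀ x y, Relation.ReflTransGen (fun a b => M.Adj a b ∧ c a = c b) x y →
            Relation.ReflTransGen (fun a b => M1.Adj a b ∧ c (s a) = c (s b)) (π x) (π y) := by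
          intro x y hxy
          induction hxy with
          | refl => exact Relation.ReflTransGen.refl
          | tail _ h5 ih =>
            refine ih.tail ⟨?_, ?_⟩
            · obtain ⟨e, he1, he2⟩ := h5.1
              exact ⟨e, by rw [hv, he1], by rw [hα, hv, he2]⟩
            · rw [hcs, hcs]; exact h5.2
        have h5 := h4 _ _ h3
        rwa [hs', hs'] at h5)
      refine ⟨M', ?_, by rw [h2, hα]⟩
      intro e
      rw [h1, hv, hcs]

end Pool.Agent.Lib.MP_1fca17_co.T52
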