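import Mathlib
import Pool.Agent.Lib.MP_1fca17_co.Q.Defs

/-!
# MP_1fca17_co : contraction of connected sets in a plane map (no dart is removed)
-/

namespace Pool.Agent.Lib.MP_1fca17_co.T.Merge98

open Equiv Equiv.Perm
open scoped Classical
open Pool.Agent.Lib.MP_1fca17_co.Q

noncomputable section

variable {D : Type} [Fintype D]

/-- number of cycles, fixed points included -/
def cyc (π : Perm D) : ℕ := Nat.card (Quotient (SameCycle.setoid π))

theorem same_ab (π : Perm D) {a b : D} (h : ¬ π.SameCycle a b) :
    (swap a b * π).SameCycle a b := by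
  have hex : ∃ n, 0 < n ∧ (π ^ n) a = a := by
    refine ⟨orderOf π, orderOf_pos π, ?_⟩
    rw [pow_orderOf_eq_one]; rfl
  set n := Nat.find hex with hn
  obtain ⟨hn0, hna⟩ := Nat.find_spec hex
  have hmin : ∀ m, 0 < m → m < n → (π ^ m) a ≠ a := by
    intro m hm hmn hma
    exact Nat.find_min hex hmn ⟨hm, hma⟩
  have hb : ∀ m : ℕ, (π ^ m) a ≠ b := by
    intro m hm
    exact h ⟨m, by simpa using hm⟩
  have key : ∀ i, i < n → ((swap a b * π) ^ i) a = (π ^ i) a := by
    intro i
    induction i with
    | zero => intro _; simp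
    | succ i ih =>
      intro hi
      rw [pow_succ', Perm.mul_apply, ih (by omega), Perm.mul_apply, pow_succ', Perm.mul_apply]
      rw [← Perm.mul_apply π, ← pow_succ']
      exact swap_apply_of_ne_of_ne (hmin _ (by omega) hi) (hb _)
  obtain ⟨m, hm⟩ : ∃ m, n = m + 1 := ⟨n - 1, by omega⟩
  refine ⟨n, ?_⟩
  rw [zpow_natCast, hm, pow_succ', Perm.mul_apply, key m (by omega), Perm.mul_apply,
    ← Perm.mul_apply π, ← pow_succ', ← hm]
  rw [← hn] at hna
  rw [hna]
  exact swap_apply_left a b

theorem same_step (π : Perm D) {a b : D} (h : ¬ π.SameCycle a b) (c : D) :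
    (swap a b * π).SameCycle c (π c) := by
  have h1 : (swap a b * π).SameCycle c ((swap a b * π) c) := ⟨1, by simp⟩
  have h2 := same_ab π h
  by_cases ha : π c = a
  · rw [Perm.mul_apply, ha, swap_apply_left] at h1
    rw [ha]; exact h1.trans h2.symm
  · by_cases hb : π c = b
    · rw [Perm.mul_apply, hb, swap_apply_right] at h1
      rw [hb]; exact h1.trans h2
    · rw [Perm.mul_apply, swap_apply_of_ne_of_ne ha hb] at h1
      exact h1

omit [Fintype D] in
theorem same_of (π : Perm D) (r : D → D → Prop) (hr : Equivalence r)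
    (h : ∀ c, r c (π c)) {c d : D} (hcd : π.SameCycle c d) : r c d := by
  obtain ⟨i, rfl⟩ := hcd
  have hn : ∀ n : ℕ, ∀ c, r c ((π ^ n) c) := by
    intro n
    induction n with
    | zero => intro c; simpa using hr.refl c
    | succ n ih =>
      intro c
      rw [pow_succ', Perm.mul_apply]
      exact hr.trans (ih c) (h _)
  rcases i with n | n
  · simpa using hn n c
  · have := hn (n + 1) ((π ^ (Int.negSucc n)) c)
    rw [← Perm.mul_apply, zpow_negSucc, mul_inv_cancel, Perm.one_apply] at this
    rw [zpow_negSucc]
    exact hr.symm this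

/-- merging two cycles -/
theorem same_merge (π : Perm D) {a b : D} (h : ¬ π.SameCycle a b) (c d : D) :
    (swap a b * π).SameCycle c d ↔ π.SameCycle c d ∨
      ((π.SameCycle a c ∨ π.SameCycle b c) ∧ (π.SameCycle a d ∨ π.SameCycle b d)) := by
  constructor
  · intro hcd
    refine same_of (swap a b * π) (fun c d => π.SameCycle c d ∨
      ((π.SameCycle a c ∨ π.SameCycle b c) ∧ (π.SameCycle a d ∨ π.SameCycle b d))) ?_ ?_ hcd
    · refine ⟨fun x => Or.inl (SameCycle.refl _ _), ?_, ?_⟩
      · rintro x y (h1 | ⟨h1, h2⟩)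
        · exact Or.inl h1.symm
        · exact Or.inr ⟨h2, h1⟩
      · rintro x y z (h1 | ⟨h1, h2⟩) (h3 | ⟨h3, h4⟩)
        · exact Or.inl (h1.trans h3)
        · exact Or.inr ⟨h3.imp (fun t => t.trans h1.symm) (fun t => t.trans h1.symm), h4⟩
        · exact Or.inr ⟨h1, h2.imp (fun t => t.trans h3) (fun t => t.trans h3)⟩
        · exact Or.inr ⟨h1, h4⟩
    · intro c
      have hc : π.SameCycle c (π c) := ⟨1, by simp⟩
      rw [Perm.mul_apply]
      by_cases ha : π c = a
      · rw [ha, swap_apply_left]
        rw [ha] at hc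
        exact Or.inr ⟨Or.inl hc.symm, Or.inr (SameCycle.refl _ _)⟩
      · by_cases hb : π c = b
        · rw [hb, swap_apply_right]
          rw [hb] at hc
          exact Or.inr ⟨Or.inr hc.symm, Or.inl (SameCycle.refl _ _)⟩
        · rw [swap_apply_of_ne_of_ne ha hb]
          exact Or.inl hc
  · have hab := same_ab π h
    have h1 : ∀ {c d}, π.SameCycle c d → (swap a b * π).SameCycle c d := by
      intro c d hcd
      exact same_of π (fun c d => (swap a b * π).SameCycle c d)
        ⟨fun x => SameCycle.refl _ _, fun h => h.symm, fun h h' => h.trans h'⟩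
        (same_step π h) hcd
    rintro (hcd | ⟨h2 | h2, h3 | h3⟩)
    · exact h1 hcd
    · exact (h1 h2).symm.trans (h1 h3)
    · exact (h1 h2).symm.trans (hab.trans (h1 h3))
    · exact (h1 h2).symm.trans (hab.symm.trans (h1 h3))
    · exact (h1 h2).symm.trans (h1 h3)

/-- the number of cycles after merging -/
theorem cyc_merge (π : Perm D) {a b : D} (h : ¬ π.SameCycle a b) :
    cyc (swap a b * π) + 1 = cyc π := by
  unfold cyc
  let F : Quotient (SameCycle.setoid (swap a b * π)) →
      {q : Quotient (SameCycle.setoid π) // q ≠ Quotient.mk _ b} := fun q =>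
    Quotient.liftOn q (fun c => if hc : π.SameCycle b c then
        ⟨Quotient.mk _ a, fun he => h (Quotient.exact he)⟩ else
        ⟨Quotient.mk _ c, fun he => hc (SameCycle.symm (Quotient.exact he))⟩) (by
      intro c d hcd
      have hcd' := (same_merge π h c d).1 hcd
      by_cases hc : π.SameCycle b c
      · by_cases hd : π.SameCycle b d
        · rw [dif_pos hc, dif_pos hd]
        · rw [dif_pos hc, dif_neg hd]
          apply Subtype.ext
          apply Quotient.sound
          rcases hcd' with h1 | ⟨h1, h2 | h2⟩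
          · exact absurd (hc.trans h1) hd
          · exact h2
          · exact absurd h2 hd
      · by_cases hd : π.SameCycle b d
        · rw [dif_neg hc, dif_pos hd]
          apply Subtype.ext
          apply Quotient.sound
          rcases hcd' with h1 | ⟨h1 | h1, h2⟩
          · exact absurd (hd.trans h1.symm) hc
          · exact SameCycle.symm h1
          · exact absurd h1 hc
        · rw [dif_neg hc, dif_neg hd]
          apply Subtype.ext
          apply Quotient.sound
          rcases hcd' with h1 | ⟨h1 | h1, h2 | h2⟩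
          · exact h1
          · exact SameCycle.trans (SameCycle.symm h1) h2
          · exact absurd h2 hd
          · exact absurd h1 hc
          · exact absurd h1 hc)
  have hF : ∀ c, F (Quotient.mk _ c) = if hc : π.SameCycle b c then
        ⟨Quotient.mk _ a, fun he => h (Quotient.exact he)⟩ else
        ⟨Quotient.mk _ c, fun he => hc (SameCycle.symm (Quotient.exact he))⟩ := fun c => rfl
  have hbij : Function.Bijective F := by
    constructor
    · intro p q
      refine Quotient.inductionOn₂ p q ?_
      intro c d hcd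
      apply Quotient.sound
      refine (same_merge π h c d).2 ?_
      rw [hF, hF] at hcd
      by_cases hc : π.SameCycle b c
      · by_cases hd : π.SameCycle b d
        · exact Or.inl (hc.symm.trans hd)
        · rw [dif_pos hc, dif_neg hd] at hcd
          have h1 : π.SameCycle a d := Quotient.exact (Subtype.ext_iff.1 hcd)
          exact Or.inr ⟨Or.inr hc, Or.inl h1⟩
      · by_cases hd : π.SameCycle b d
        · rw [dif_neg hc, dif_pos hd] at hcd
          have h1 : π.SameCycle c a := Quotient.exact (Subtype.ext_iff.1 hcd)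
          exact Or.inr ⟨Or.inl h1.symm, Or.inr hd⟩
        · rw [dif_neg hc, dif_neg hd] at hcd
          have h1 : π.SameCycle c d := Quotient.exact (Subtype.ext_iff.1 hcd)
          exact Or.inl h1
    · rintro ⟨q, hq⟩
      revert hq
      refine Quotient.inductionOn q ?_
      intro c hc
      refine ⟨Quotient.mk _ c, ?_⟩
      have hc' : ¬ π.SameCycle b c := fun t => hc (Quotient.sound (SameCycle.symm t))
      rw [hF, dif_neg hc']
  rw [Nat.card_congr (Equiv.ofBijective F hbij)]
  rw [Nat.card_eq_fintype_card, Nat.card_eq_fintype_card]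
  have := Fintype.card_subtype_compl (fun q : Quotient (SameCycle.setoid π) =>
    q = Quotient.mk _ b)
  rw [Fintype.card_subtype_eq] at this
  have hpos : 0 < Fintype.card (Quotient (SameCycle.setoid π)) :=
    Fintype.card_pos_iff.2 ⟨Quotient.mk _ b⟩
  have h2 : Fintype.card {q : Quotient (SameCycle.setoid π) // q ≠ Quotient.mk _ b} =
    Fintype.card {q : Quotient (SameCycle.setoid π) // ¬ (q = Quotient.mk _ b)} := rfl
  omega

/-- identification of two adjacent vertices -/
theorem merge_one {X : Type} [Fintype X] (M : PlaneMap X D) {p q : X} (hpq : p ≠ q)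
    (hadj : M.Adj p q) (g : X → {z : X // z ≠ q})
    (hg : ∀ z, g z = if h : z = q then ⟨p, hpq⟩ else ⟨z, h⟩) :
    ∃ M' : PlaneMap {z : X // z ≠ q} D, M'.α = M.α ∧ ∀ d, M'.vert d = g (M.vert d) := by
  obtain ⟨e, he1, he2⟩ := hadj
  have hb : M.vert (M.σ (M.α e)) = q := by
    rw [← he2]
    exact ((M.orbit _ _).2 ⟨1, by simp⟩).symm
  have hns : ¬ M.σ.SameCycle e (M.σ (M.α e)) := by
    intro h
    have := (M.orbit _ _).2 h
    rw [he1, hb] at this
    exact hpq this
  have hne : e ≠ M.σ (M.α e) := by
    intro h
    exact hns (h ▸ SameCycle.refl _ _)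
  have hgeq : ∀ z z', g z = g z' ↔ z = z' ∨ ((z = p ∨ z = q) ∧ (z' = p ∨ z' = q)) := by
    intro z z'
    rw [hg, hg]
    by_cases h1 : z = q
    · by_cases h2 : z' = q
      · simp [h1, h2]
      · rw [dif_pos h1, dif_neg h2, Subtype.mk.injEq]
        constructor
        · intro h; exact Or.inr ⟨Or.inr h1, Or.inl h.symm⟩
        · rintro (h | ⟨-, h | h⟩)
          · exact absurd (h ▸ h1) h2
          · exact h.symm
          · exact absurd h h2
    · by_cases h2 : z' = q
      · rw [dif_neg h1, dif_pos h2, Subtype.mk.injEq]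
        constructor
        · intro h; exact Or.inr ⟨Or.inl h, Or.inr h2⟩
        · rintro (h | ⟨h | h, -⟩)
          · exact absurd (h.trans h2) h1
          · exact h
          · exact absurd h h1
      · rw [dif_neg h1, dif_neg h2, Subtype.mk.injEq]
        constructor
        · intro h; exact Or.inl h
        · rintro (h | ⟨h | h, h' | h'⟩)
          · exact h
          · exact h.trans h'.symm
          · exact absurd h' h2
          · exact absurd h h1
          · exact absurd h h1
  have hstep : ∀ x y, (∃ d, M.vert d = x ∧ M.vert (M.α d) = y) →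
      ∃ d, g (M.vert d) = g x ∧ g (M.vert (M.α d)) = g y := by
    rintro x y ⟨d, h1, h2⟩
    exact ⟨d, by rw [h1], by rw [h2]⟩
  refine ⟨{ vert := fun d => g (M.vert d)
            σ := swap e (M.σ (M.α e)) * M.σ
            α := M.α
            invol := M.invol
            nofix := M.nofix
            surj := ?_
            orbit := ?_
            conn := ?_
            euler := ?_ }, rfl, fun d => rfl⟩
  · rintro ⟨z, hz⟩
    obtain ⟨d, hd⟩ := M.surj z
    refine ⟨d, ?_⟩
    show g (M.vert d) = _
    rw [hd, hg, dif_neg hz]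
  · intro d d'
    rw [hgeq, same_merge M.σ hns, ← M.orbit, ← M.orbit, ← M.orbit, ← M.orbit, ← M.orbit, he1, hb]
    constructor
    · rintro (h | ⟨h1, h2⟩)
      · exact Or.inl h
      · exact Or.inr ⟨h1.imp Eq.symm Eq.symm, h2.imp Eq.symm Eq.symm⟩
    · rintro (h | ⟨h1, h2⟩)
      · exact Or.inl h
      · exact Or.inr ⟨h1.imp Eq.symm Eq.symm, h2.imp Eq.symm Eq.symm⟩
  · rintro ⟨x, hx⟩ ⟨y, hy⟩
    have hgx : g x = ⟨x, hx⟩ := by rw [hg, dif_neg hx]
    have hgy : g y = ⟨y, hy⟩ := by rw [hg, dif_neg hy]
    rw [← hgx, ← hgy]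
    exact (M.conn x y).lift g hstep
  · have h1 : (swap e (M.σ (M.α e)) * M.σ) * M.α = swap e (M.σ (M.α e)) * (M.σ * M.α) :=
      mul_assoc _ _ _
    have hfix : (swap e (M.σ (M.α e)) * (M.σ * M.α)) e = e := by
      rw [Perm.mul_apply, Perm.mul_apply, swap_apply_right]
    have hns' : ¬ (swap e (M.σ (M.α e)) * (M.σ * M.α)).SameCycle e (M.σ (M.α e)) := by
      intro h
      obtain ⟨i, hi⟩ := h
      rw [zpow_apply_eq_self_of_apply_eq_self hfix] at hi
      exact hne hi
    have h2 := cyc_merge _ hns'
    rw [← mul_assoc, swap_mul_self, one_mul] at h2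
    have h3 := M.euler
    have h4 : Fintype.card {z : X // z ≠ q} + 1 = Fintype.card X := by
      have := Fintype.card_subtype_compl (fun z : X => z = q)
      rw [Fintype.card_subtype_eq] at this
      have hpos : 0 < Fintype.card X := Fintype.card_pos_iff.2 ⟨q⟩
      have h5 : Fintype.card {z : X // z ≠ q} = Fintype.card {z : X // ¬ (z = q)} := rfl
      omega
    rw [h1]
    unfold cyc at h2
    omega

/-- MERGE: contraction of the fibres of a map with connected fibres -/
theorem merge {Y : Type} [Fintype Y] : ∀ (n : ℕ) (X : Type) [Fintype X] (M : PlaneMap X D)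
    (f : X → Y), Fintype.card X = n → Function.Surjective f →
    (∀ x x', f x = f x' → Relation.ReflTransGen (fun a b => f a = f b ∧ M.Adj a b) x x') →
    ∃ M' : PlaneMap Y D, M'.α = M.α ∧ ∀ d, M'.vert d = f (M.vert d) := by
  intro n
  induction n with
  | zero =>
    intro X _ M f hn hf hc
    exfalso
    have h0 := Fintype.card_eq_zero_iff.1 hn
    have h1 : IsEmpty D := ⟨fun d => h0.elim (M.vert d)⟩
    have h2 := M.euler
    rw [hn, Fintype.card_eq_zero] at h2
    have h3 : Nat.card (Quotient (SameCycle.setoid (M.σ * M.α))) = 0 := by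
      rw [Nat.card_eq_fintype_card]
      have : IsEmpty (Quotient (SameCycle.setoid (M.σ * M.α))) :=
        ⟨fun q => Quotient.inductionOn q (fun d => h1.elim d)⟩
      exact Fintype.card_eq_zero
    omega
  | succ n ih =>
    intro X _ M f hn hf hc
    by_cases hinj : Function.Injective f
    · refine ⟨{ vert := fun d => f (M.vert d)
                σ := M.σ
                α := M.α
                invol := M.invol
                nofix := M.nofix
                surj := hf.comp M.surj
                orbit := fun d d' => by rw [hinj.eq_iff]; exact M.orbit d d'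
                conn := ?_
                euler := ?_ }, rfl, fun d => rfl⟩
      · intro y y'
        obtain ⟨x, rfl⟩ := hf y
        obtain ⟨x', rfl⟩ := hf y'
        refine (M.conn x x').lift f ?_
        rintro a b ⟨d, h1, h2⟩
        exact ⟨d, by rw [h1], by rw [h2]⟩
      · rw [← Fintype.card_of_bijective ⟨hinj, hf⟩]
        exact M.euler
    · have : ∃ u v, f u = f v ∧ u ≠ v := by
        simpa [Function.Injective] using hinj
      obtain ⟨u, v, huv, hne⟩ := this
      have hpq : ∃ p q, (f p = f q ∧ M.Adj p q) ∧ p ≠ q := by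
        by_contra hcon
        push Not at hcon
        apply hne
        have h := hc u v huv
        induction h with
        | refl => rfl
        | tail h1 h2 ih =>
          rename_i b c
          have h3 := hcon _ _ h2
          have h4 : u = b := by
            by_cases hb : u = b
            · exact hb
            · exact ih (h2.1 ▸ huv) hb
          exact h4.trans h3
      obtain ⟨p, q, ⟨hfpq, hadj⟩, hpq⟩ := hpq
      let g : X → {z : X // z ≠ q} := fun z => if h : z = q then ⟨p, hpq⟩ else ⟨z, h⟩
      have hg : ∀ z, g z = if h : z = q then ⟨p, hpq⟩ else ⟨z, h⟩ := fun z => rfl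
      obtain ⟨M1, hα, hv⟩ := merge_one M hpq hadj g hg
      have hfg : ∀ z, f (g z).1 = f z := by
        intro z
        rw [hg]
        by_cases h : z = q
        · rw [dif_pos h, h]; exact hfpq
        · rw [dif_neg h]
      have hgid : ∀ z : {z : X // z ≠ q}, g z.1 = z := by
        intro z
        rw [hg, dif_neg z.2]
      have hcard : Fintype.card {z : X // z ≠ q} = n := by
        have := Fintype.card_subtype_compl (fun z : X => z = q)
        rw [Fintype.card_subtype_eq] at this
        have h5 : Fintype.card {z : X // z ≠ q} = Fintype.card {z : X // ¬ (z = q)} := rfl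
        omega
      obtain ⟨M', hα', hv'⟩ := ih {z : X // z ≠ q} M1 (fun z => f z.1) hcard
        (fun y => by
          obtain ⟨x, rfl⟩ := hf y
          exact ⟨g x, hfg x⟩)
        (by
          intro z z' hzz
          have h1 := hc z.1 z'.1 hzz
          have h2 := h1.lift (p := fun a b => f a.1 = f b.1 ∧ M1.Adj a b) g (by
            rintro a b ⟨h3, d, h4, h5⟩
            refine ⟨by rw [hfg, hfg]; exact h3, d, ?_, ?_⟩
            · rw [hv, h4]
            · rw [hv, hα, h5])
          have h3 : Relation.ReflTransGen (fun a b => f a.1 = f b.1 ∧ M1.Adj a b)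
            (g z.1) (g z'.1) := h2
          rwa [hgid, hgid] at h3)
      refine ⟨M', by rw [hα', hα], ?_⟩
      intro d
      rw [hv', hv, hfg]

/-- MERGE, final form -/
theorem merge98 {X Y : Type} [Fintype X] [Fintype Y] (M : PlaneMap X D) (f : X → Y)
    (hf : Function.Surjective f)
    (hc : ∀ x x', f x = f x' → Relation.ReflTransGen (fun a b => f a = f b ∧ M.Adj a b) x x') :
    ∃ M' : PlaneMap Y D, (∀ d, M'.vert d = f (M.vert d)) ∧ M'.α = M.α ∧
      ∀ y y', M'.Adj y y' ↔ ∃ x x', f x = y ∧ f x' = y' ∧ M.Adj x x' := by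
  obtain ⟨M', h1, h2⟩ := merge _ X M f rfl hf hc
  refine ⟨M', h2, h1, fun y y' => ⟨?_, ?_⟩⟩
  · rintro ⟨d, h3, h4⟩
    refine ⟨M.vert d, M.vert (M.α d), ?_, ?_, d, rfl, rfl⟩
    · rw [← h2, h3]
    · rw [← h2, ← h1, h4]
  · rintro ⟨x, x', rfl, rfl, d, rfl, rfl⟩
    refine ⟨d, h2 d, ?_⟩
    rw [h1, h2]

end

end Pool.Agent.Lib.MP_1fca17_co.T.Merge98
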