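import Mathlib
import Pool.Agent.Lib.MP_1fca17_co.Q.Defs
import Pool.Agent.Lib.MP_1fca17_co.T.Grid99

/-!
# MP_1fca17_co : minors of plane maps (identification of adjacent vertices)
-/

namespace Pool.Agent.Lib.MP_1fca17_co.T.Minor99

open Finset
open scoped Classical
open Pool.Agent.Lib.MP_1fca17_co.Q (PlaneMap)
open Pool.Agent.Lib.MP_1fca17_co.T.Grid99 (card_cycles inv_same)

noncomputable section

/-! ## Permutations: merging and splitting cycles -/

section Perm

variable {D : Type} [Fintype D]

theorem exists_nat_pow {p : Equiv.Perm D} {x y : D} (h : p.SameCycle x y) :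
    ∃ k : ℕ, (p ^ k) x = y := by
  obtain ⟨k, _, hk⟩ := h.exists_pow_eq' (f := p)
  exact ⟨k, hk⟩

/-- the bypassed permutation has one more cycle -/
theorem bypass_same (p : Equiv.Perm D) (d0 : D) (h0 : p d0 ≠ d0) (e : D) (he : e ≠ d0) (k : ℕ)
    (hk : (p ^ k) e ≠ d0) : (Equiv.swap d0 (p d0) * p).SameCycle e ((p ^ k) e) := by
  have hstep : ∀ f : D, f ≠ d0 → p f ≠ d0 → (Equiv.swap d0 (p d0) * p) f = p f := by
    intro f hf hpf
    rw [Equiv.Perm.mul_apply, Equiv.swap_apply_of_ne_of_ne hpf]
    intro h
    exact hf (p.injective h)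
  have hstep2 : ∀ f : D, p f = d0 → (Equiv.swap d0 (p d0) * p) f = p d0 := by
    intro f hf
    rw [Equiv.Perm.mul_apply, hf, Equiv.swap_apply_left]
  induction k using Nat.strong_induction_on with
  | _ k ih =>
    rcases k with _ | k
    · exact Equiv.Perm.SameCycle.refl _ _
    · by_cases hk' : (p ^ k) e = d0
      · rcases k with _ | j
        · exact absurd hk' he
        · have hf : p ((p ^ j) e) = d0 := by
            rw [← hk', pow_succ', Equiv.Perm.mul_apply]
          have hne : (p ^ j) e ≠ d0 := by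
            intro h
            rw [h] at hf
            exact h0 hf
          have h1 := ih j (by omega) hne
          have h2 : (Equiv.swap d0 (p d0) * p) ((p ^ j) e) = (p ^ (j + 1 + 1)) e := by
            rw [hstep2 _ hf, pow_succ', Equiv.Perm.mul_apply, hk']
          rw [← h2]
          exact h1.trans ⟨1, by simp⟩
      · have h1 := ih k (by omega) hk'
        have h2 : (Equiv.swap d0 (p d0) * p) ((p ^ k) e) = (p ^ (k + 1)) e := by
          rw [hstep _ hk' (by rw [← Equiv.Perm.mul_apply, ← pow_succ']; exact hk), pow_succ',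
            Equiv.Perm.mul_apply]
        rw [← h2]
        exact h1.trans ⟨1, by simp⟩

theorem bypass_count (p : Equiv.Perm D) (d0 : D) (h0 : p d0 ≠ d0) :
    Nat.card (Quotient (Equiv.Perm.SameCycle.setoid (Equiv.swap d0 (p d0) * p))) =
      Nat.card (Quotient (Equiv.Perm.SameCycle.setoid p)) + 1 := by
  have hfix : (Equiv.swap d0 (p d0) * p) d0 = d0 := by
    rw [Equiv.Perm.mul_apply, Equiv.swap_apply_right]
  set f : D → Option (Quotient (Equiv.Perm.SameCycle.setoid p)) := fun e =>
    if e = d0 then none else some (Quotient.mk _ e) with hf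
  have hinv : ∀ e, f ((Equiv.swap d0 (p d0) * p) e) = f e := by
    intro e
    by_cases he : e = d0
    · rw [he, hfix]
    · have hpe : p e ≠ p d0 := fun h => he (p.injective h)
      have hs1 : p.SameCycle (p e) e := (Equiv.Perm.SameCycle.symm ⟨1, by simp⟩)
      by_cases hpe0 : p e = d0
      · have h1 : (Equiv.swap d0 (p d0) * p) e = p d0 := by
          rw [Equiv.Perm.mul_apply, hpe0, Equiv.swap_apply_left]
        rw [h1]
        simp only [hf, if_neg h0, if_neg he]
        congr 1
        refine Quotient.sound ?_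
        have hs2 : p.SameCycle (p d0) d0 := (Equiv.Perm.SameCycle.symm ⟨1, by simp⟩)
        rw [hpe0] at hs1
        exact hs2.trans hs1
      · have h1 : (Equiv.swap d0 (p d0) * p) e = p e := by
          rw [Equiv.Perm.mul_apply, Equiv.swap_apply_of_ne_of_ne hpe0 hpe]
        rw [h1]
        simp only [hf, if_neg hpe0, if_neg he]
        congr 1
        exact Quotient.sound hs1
  rw [card_cycles (Equiv.swap d0 (p d0) * p) f]
  · rw [Nat.card_eq_fintype_card, Nat.card_eq_fintype_card, Fintype.card_option]
  · intro o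
    rcases o with _ | q
    · exact ⟨d0, by simp [hf]⟩
    · induction q using Quotient.inductionOn with
      | h e =>
        by_cases he : e = d0
        · refine ⟨p d0, ?_⟩
          simp only [hf, if_neg h0]
          congr 1
          refine Quotient.sound ?_
          rw [he]
          exact Equiv.Perm.SameCycle.symm ⟨1, by simp⟩
        · exact ⟨e, by simp [hf, he]⟩
  · intro e e'
    constructor
    · intro h
      exact inv_same _ f hinv h
    · intro h
      by_cases he : e = d0
      · by_cases he' : e' = d0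
        · rw [he, he']
        · simp [hf, he, he'] at h
      · by_cases he' : e' = d0
        · simp [hf, he, he'] at h
        · simp only [hf, if_neg he, if_neg he', Option.some.injEq] at h
          have hs : p.SameCycle e e' := Quotient.exact h
          obtain ⟨k, hk⟩ := exists_nat_pow hs
          rw [← hk] at he' ⊢
          exact bypass_same p d0 h0 e he k he'

/-- after a swap of two different cycles the two darts are in one cycle -/
theorem merge_xy (p : Equiv.Perm D) (x y : D) (h : ¬ p.SameCycle x y) :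
    (Equiv.swap x y * p).SameCycle x y := by
  have hex : ∃ L : ℕ, 0 < L ∧ (p ^ L) x = x :=
    ⟨orderOf p, orderOf_pos p, by rw [pow_orderOf_eq_one]; rfl⟩
  set L := Nat.find hex with hL
  obtain ⟨hpos, hLx⟩ := Nat.find_spec hex
  have hmin : ∀ i, 0 < i → i < L → (p ^ i) x ≠ x := by
    intro i hi hiL hix
    exact Nat.find_min hex hiL ⟨hi, hix⟩
  have hy : ∀ i : ℕ, (p ^ i) x ≠ y := by
    intro i hi
    exact h ⟨i, by rw [zpow_natCast, hi]⟩
  have hpow : ∀ i, i < L → ((Equiv.swap x y * p) ^ i) x = (p ^ i) x := by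
    intro i
    induction i with
    | zero => intro _; simp
    | succ i ih =>
      intro hi
      rw [pow_succ', Equiv.Perm.mul_apply, ih (by omega), Equiv.Perm.mul_apply,
        ← Equiv.Perm.mul_apply p, ← pow_succ']
      exact Equiv.swap_apply_of_ne_of_ne (hmin _ (by omega) hi) (hy _)
  refine ⟨L, ?_⟩
  rw [zpow_natCast]
  obtain ⟨j, hj⟩ : ∃ j, L = j + 1 := ⟨L - 1, by omega⟩
  rw [hj, pow_succ', Equiv.Perm.mul_apply, hpow j (by omega), Equiv.Perm.mul_apply,
    ← Equiv.Perm.mul_apply p, ← pow_succ', ← hj, hLx, Equiv.swap_apply_left]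

theorem merge_of_same (p : Equiv.Perm D) (x y : D) (h : ¬ p.SameCycle x y) {e e' : D}
    (hs : p.SameCycle e e') : (Equiv.swap x y * p).SameCycle e e' := by
  have hxy := merge_xy p x y h
  have hstep : ∀ f, (Equiv.swap x y * p).SameCycle f (p f) := by
    intro f
    have h1 : (Equiv.swap x y * p).SameCycle f ((Equiv.swap x y * p) f) := ⟨1, by simp⟩
    rw [Equiv.Perm.mul_apply] at h1
    by_cases hx : p f = x
    · rw [hx, Equiv.swap_apply_left] at h1
      rw [hx]
      exact h1.trans hxy.symm
    · by_cases hy : p f = y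
      · rw [hy, Equiv.swap_apply_right] at h1
        rw [hy]
        exact h1.trans hxy
      · rwa [Equiv.swap_apply_of_ne_of_ne hx hy] at h1
  obtain ⟨k, hk⟩ := exists_nat_pow hs
  rw [← hk]
  clear hk hs
  induction k with
  | zero => exact Equiv.Perm.SameCycle.refl _ _
  | succ k ih =>
    rw [pow_succ', Equiv.Perm.mul_apply]
    exact ih.trans (hstep _)

end Perm

/-! ## Identification of two adjacent vertices -/

section Ident

variable {X D : Type} [Fintype X] [Fintype D] (M : PlaneMap X D)

theorem PlaneMap.sig_vert (d : D) : M.vert (M.σ d) = M.vert d :=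
  ((M.orbit _ _).2 ⟨1, by simp⟩ : M.vert d = M.vert (M.σ d)).symm

/-- the map of the vertices: `b` goes to `a` -/
def idm {X : Type} (a b : X) (hab : a ≠ b) (x : X) : {x : X // x ≠ b} :=
  if h : x = b then ⟨a, hab⟩ else ⟨x, h⟩

theorem idm_b {X : Type} (a b : X) (hab : a ≠ b) : idm a b hab b = ⟨a, hab⟩ := by
  simp [idm]

theorem idm_ne {X : Type} (a b : X) (hab : a ≠ b) (x : X) (h : x ≠ b) :
    idm a b hab x = ⟨x, h⟩ := by
  simp [idm, h]

theorem idm_eq {X : Type} (a b : X) (hab : a ≠ b) (x y : X) :
    idm a b hab x = idm a b hab y ↔ x = y ∨ (x = a ∧ y = b) ∨ (x = b ∧ y = a) := by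
  by_cases hx : x = b
  · by_cases hy : y = b
    · simp [hx, hy]
    · rw [hx, idm_b, idm_ne _ _ _ _ hy, Subtype.mk.injEq]
      constructor
      · intro h
        exact Or.inr (Or.inr ⟨rfl, h.symm⟩)
      · rintro (h | h | h)
        · exact absurd h.symm hy
        · exact absurd h.2 hy
        · exact h.2.symm
  · by_cases hy : y = b
    · rw [hy, idm_b, idm_ne _ _ _ _ hx, Subtype.mk.injEq]
      constructor
      · intro h
        exact Or.inr (Or.inl ⟨h, rfl⟩)
      · rintro (h | h | h)
        · exact absurd h hx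
        · exact h.1
        · exact absurd h.1 hx
    · rw [idm_ne _ _ _ _ hx, idm_ne _ _ _ _ hy, Subtype.mk.injEq]
      constructor
      · intro h
        exact Or.inl h
      · rintro (h | h | h)
        · exact h
        · exact absurd h.2 hy
        · exact absurd h.1 hx

/-- lifting of chains -/
theorem rlift {A B : Type} {r : A → A → Prop} {q : B → B → Prop} (f : A → B)
    (h : ∀ a b, r a b → q (f a) (f b)) {x y : A} (hxy : Relation.ReflTransGen r x y) :
    Relation.ReflTransGen q (f x) (f y) := by
  induction hxy with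
  | refl => exact Relation.ReflTransGen.refl
  | tail _ hab ih => exact ih.tail (h _ _ hab)

theorem ident (d0 : D) (a b : X) (ha : M.vert d0 = a) (hb : M.vert (M.α d0) = b) (hab : a ≠ b) :
    ∃ M' : PlaneMap {x : X // x ≠ b} D,
      ∀ x y, M.Adj x y → M'.Adj (idm a b hab x) (idm a b hab y) := by
  obtain ⟨φ, hφ⟩ : ∃ φ : Equiv.Perm D, φ = M.σ * M.α := ⟨_, rfl⟩
  have hvφ : M.vert (φ d0) = b := by
    rw [hφ, Equiv.Perm.mul_apply, PlaneMap.sig_vert M, hb]
  have hφ0 : φ d0 ≠ d0 := by
    intro h
    apply hab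
    rw [← ha, ← hvφ, h]
  obtain ⟨y, hy⟩ : ∃ y, y = φ d0 := ⟨_, rfl⟩
  have hvy : M.vert y = b := by rw [hy, hvφ]
  have hnxy : ¬ M.σ.SameCycle d0 y := by
    intro h
    apply hab
    rw [← ha, ← hvy]
    exact (M.orbit _ _).2 h
  obtain ⟨σ', hσ'⟩ : ∃ σ' : Equiv.Perm D, σ' = Equiv.swap d0 y * M.σ := ⟨_, rfl⟩
  have hmerge : ∀ {e e' : D}, M.σ.SameCycle e e' → σ'.SameCycle e e' := by
    intro e e' h
    rw [hσ']
    exact merge_of_same M.σ d0 y hnxy h
  have hxy : σ'.SameCycle d0 y := by
    rw [hσ']
    exact merge_xy M.σ d0 y hnxy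
  have hinv : ∀ e, idm a b hab (M.vert (σ' e)) = idm a b hab (M.vert e) := by
    intro e
    have h1 : M.vert (M.σ e) = M.vert e := PlaneMap.sig_vert M _
    rw [hσ', Equiv.Perm.mul_apply]
    by_cases hex : M.σ e = d0
    · rw [hex, Equiv.swap_apply_left, hvy, idm_eq]
      right; right
      exact ⟨rfl, by rw [← h1, hex, ha]⟩
    · by_cases hey : M.σ e = y
      · rw [hey, Equiv.swap_apply_right, idm_eq]
        right; left
        exact ⟨ha, by rw [← h1, hey, hvy]⟩
      · rw [Equiv.swap_apply_of_ne_of_ne hex hey, h1]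
  have hcard : Fintype.card {x : X // x ≠ b} + 1 = Fintype.card X := by
    have h1 : Fintype.card {x : X // x ≠ b} = Fintype.card X - 1 := Set.card_ne_eq b
    have h2 : 0 < Fintype.card X := Fintype.card_pos_iff.2 ⟨b⟩
    omega
  refine ⟨{
    vert := fun e => idm a b hab (M.vert e)
    σ := σ'
    α := M.α
    invol := M.invol
    nofix := M.nofix
    surj := ?_
    orbit := ?_
    conn := ?_
    euler := ?_ }, ?_⟩
  · rintro ⟨z, hz⟩
    obtain ⟨e, he⟩ := M.surj z
    exact ⟨e, by simp only [he]; exact idm_ne _ _ _ _ hz⟩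
  · intro e e'
    constructor
    · intro h
      rcases (idm_eq a b hab _ _).1 h with h | ⟨h1, h2⟩ | ⟨h1, h2⟩
      · exact hmerge ((M.orbit _ _).1 h)
      · have s1 : σ'.SameCycle e d0 := hmerge ((M.orbit _ _).1 (by rw [h1, ha]))
        have s2 : σ'.SameCycle e' y := hmerge ((M.orbit _ _).1 (by rw [h2, hvy]))
        exact (s1.trans hxy).trans s2.symm
      · have s1 : σ'.SameCycle e' d0 := hmerge ((M.orbit _ _).1 (by rw [h2, ha]))
        have s2 : σ'.SameCycle e y := hmerge ((M.orbit _ _).1 (by rw [h1, hvy]))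
        exact ((s1.trans hxy).trans s2.symm).symm
    · intro h
      exact inv_same σ' (fun e => idm a b hab (M.vert e)) hinv h
  · rintro ⟨u, hu⟩ ⟨v, hv⟩
    have h2 : Relation.ReflTransGen (fun p q => ∃ d, idm a b hab (M.vert d) = p ∧
        idm a b hab (M.vert (M.α d)) = q) (idm a b hab u) (idm a b hab v) := by
      refine rlift (idm a b hab) ?_ (M.conn u v)
      rintro p q ⟨d, hd1, hd2⟩
      exact ⟨d, by rw [hd1], by rw [hd2]⟩
    rwa [idm_ne _ _ _ _ hu, idm_ne _ _ _ _ hv] at h2
  · have he := M.euler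
    have h3 : σ' * M.α = Equiv.swap d0 (φ d0) * φ := by
      rw [hσ', hy, hφ, mul_assoc]
    rw [h3, bypass_count φ d0 hφ0]
    rw [← hφ] at he
    omega
  · rintro p q ⟨d, hd1, hd2⟩
    exact ⟨d, by simp only [hd1], by simp only [hd2]⟩

end Ident

/-! ## Minors -/

/-- transport of a plane map along a bijection of the vertices -/
theorem transport {X P D : Type} [Fintype X] [Fintype P] [Fintype D] (M : PlaneMap X D)
    (f : X → P) (hf : Function.Bijective f) :
    ∃ M' : PlaneMap P D, ∀ x y, M.Adj x y → M'.Adj (f x) (f y) := by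
  refine ⟨{
    vert := fun e => f (M.vert e)
    σ := M.σ
    α := M.α
    invol := M.invol
    nofix := M.nofix
    surj := hf.2.comp M.surj
    orbit := fun d d' => by rw [hf.1.eq_iff]; exact M.orbit d d'
    conn := ?_
    euler := ?_ }, ?_⟩
  · intro u v
    obtain ⟨x, rfl⟩ := hf.2 u
    obtain ⟨y, rfl⟩ := hf.2 v
    refine rlift f ?_ (M.conn x y)
    rintro p q ⟨d, hd1, hd2⟩
    exact ⟨d, by rw [hd1], by rw [hd2]⟩
  · rw [← Fintype.card_of_bijective hf]
    exact M.euler
  · rintro p q ⟨d, hd1, hd2⟩
    exact ⟨d, by simp only [hd1], by simp only [hd2]⟩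

theorem minor_aux (n : ℕ) : ∀ {X P D : Type} [Fintype X] [Fintype P] [Fintype D]
    (M : PlaneMap X D) (f : X → P), Fintype.card X = n → Function.Surjective f →
    (∀ x y, f x = f y → Relation.ReflTransGen (fun a b => M.Adj a b ∧ f a = f b) x y) →
    ∃ M' : PlaneMap P D, ∀ x y, M.Adj x y → M'.Adj (f x) (f y) := by
  induction n with
  | zero =>
    intro X P D _ _ _ M f hn hs hc
    refine transport M f ⟨?_, hs⟩
    intro x
    exact ((Fintype.card_eq_zero_iff.1 hn).false x).elim
  | succ n ih =>
    intro X P D _ _ _ M f hn hs hc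
    by_cases hinj : Function.Injective f
    · exact transport M f ⟨hinj, hs⟩
    · obtain ⟨x, y, hxy, hne⟩ : ∃ x y, f x = f y ∧ x ≠ y := by
        by_contra h
        push Not at h
        exact hinj (fun x y hxy => h x y hxy)
      -- a step with different ends
      have hstep : ∃ a b, M.Adj a b ∧ f a = f b ∧ a ≠ b := by
        by_contra h
        push Not at h
        apply hne
        have h1 := hc x y hxy
        clear hxy hne
        induction h1 with
        | refl => rfl
        | tail _ hab ih => exact ih.trans (h _ _ hab.1 hab.2)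
      obtain ⟨a, b, ⟨d0, hd1, hd2⟩, hfab, hab⟩ := hstep
      obtain ⟨M1, hM1⟩ := ident M d0 a b hd1 hd2 hab
      have hπ : ∀ z, f (idm a b hab z).1 = f z := by
        intro z
        by_cases hz : z = b
        · rw [hz, idm_b]
          exact hfab
        · rw [idm_ne _ _ _ _ hz]
      have hcard : Fintype.card {x : X // x ≠ b} = n := by
        have h1 : Fintype.card {x : X // x ≠ b} = Fintype.card X - 1 :=
          Set.card_ne_eq _
        omega
      obtain ⟨M', hM'⟩ := ih M1 (fun z => f z.1) hcard (by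
        intro p
        obtain ⟨z, hz⟩ := hs p
        exact ⟨idm a b hab z, by rw [← hz]; exact hπ z⟩) (by
        rintro ⟨u, hu⟩ ⟨v, hv⟩ huv
        have h1 := hc u v huv
        have h2 : Relation.ReflTransGen (fun p q => M1.Adj p q ∧ f p.1 = f q.1)
            (idm a b hab u) (idm a b hab v) := by
          refine rlift (idm a b hab) ?_ h1
          rintro p q ⟨hp1, hp2⟩
          exact ⟨hM1 p q hp1, by rw [hπ, hπ]; exact hp2⟩
        rwa [idm_ne _ _ _ _ hu, idm_ne _ _ _ _ hv] at h2)
      refine ⟨M', ?_⟩
      intro p q hpq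
      have h1 := hM' _ _ (hM1 p q hpq)
      simpa only [hπ] using h1

/-- MINOR: if the fibres of a surjection `f` of the vertices are connected, then there is a plane
map on the images in which the images of adjacent vertices are adjacent -/
theorem minor {X P D : Type} [Fintype X] [Fintype P] [Fintype D]
    (M : PlaneMap X D) (f : X → P) (hs : Function.Surjective f)
    (hc : ∀ x y, f x = f y → Relation.ReflTransGen (fun a b => M.Adj a b ∧ f a = f b) x y) :
    ∃ M' : PlaneMap P D, ∀ x y, M.Adj x y → M'.Adj (f x) (f y) :=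
  minor_aux _ M f rfl hs hc

end

end Pool.Agent.Lib.MP_1fca17_co.T.Minor99
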