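import Mathlib

/-!
# MP_1fca17_co, ROOM TOP: row TUBE (helper56)

Points of the plane joined by arcs that do not meet outside of their ends: disjoint connected
finite sets of cells of a fine square grid, adjacent for every arc.
-/

namespace Pool.Agent.Lib.MP_1fca17_co.T56

open Set

/-! ## 1. Connected sets of cells -/

/-- the step relation inside `S` -/
def Stp {C : Type*} (adj : C → C → Prop) (S : Set C) (x y : C) : Prop :=
  x ∈ S ∧ y ∈ S ∧ adj x y

/-- `S` is connected inside itself -/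
def Conn {C : Type*} (adj : C → C → Prop) (S : Set C) : Prop :=
  ∀ c ∈ S, ∀ c' ∈ S, Relation.ReflTransGen (Stp adj S) c c'

theorem Stp.mono {C : Type*} {adj : C → C → Prop} {S T : Set C} (h : S ⊆ T) {x y : C}
    (hs : Stp adj S x y) : Stp adj T x y := ⟨h hs.1, h hs.2.1, hs.2.2⟩

theorem rtg_symm {C : Type*} {adj : C → C → Prop} (hsym : ∀ x y, adj x y → adj y x) {S : Set C}
    {x y : C} (h : Relation.ReflTransGen (Stp adj S) x y) :
    Relation.ReflTransGen (Stp adj S) y x := by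
  induction h with
  | refl => exact Relation.ReflTransGen.refl
  | tail _ h2 ih => exact Relation.ReflTransGen.head ⟨h2.2.1, h2.1, hsym _ _ h2.2.2⟩ ih

theorem rtg_mono {C : Type*} {adj : C → C → Prop} {S T : Set C} (h : S ⊆ T) {x y : C}
    (hs : Relation.ReflTransGen (Stp adj S) x y) : Relation.ReflTransGen (Stp adj T) x y := by
  induction hs with
  | refl => exact Relation.ReflTransGen.refl
  | tail _ h2 ih => exact ih.tail (Stp.mono h h2)

/-- the cells of `R` reachable from `c0` inside `R \ B` -/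
def Reach {C : Type*} (adj : C → C → Prop) (R B : Set C) (c0 : C) : Set C :=
  {c | Relation.ReflTransGen (Stp adj (R \ B)) c0 c}

theorem reach_sub {C : Type*} {adj : C → C → Prop} {R B : Set C} {c0 : C} (h0 : c0 ∈ R \ B) :
    Reach adj R B c0 ⊆ R \ B := by
  intro c hc
  induction hc with
  | refl => exact h0
  | tail _ h2 _ => exact h2.2.1

theorem reach_conn {C : Type*} {adj : C → C → Prop} {R B : Set C} {c0 c : C}
    (hc : c ∈ Reach adj R B c0) : Relation.ReflTransGen (Stp adj (Reach adj R B c0)) c0 c := by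
  have hc' : Relation.ReflTransGen (Stp adj (R \ B)) c0 c := hc
  clear hc
  induction hc' with
  | refl => exact Relation.ReflTransGen.refl
  | tail h1 h2 ih => exact ih.tail ⟨h1, Relation.ReflTransGen.tail h1 h2, h2.2.2⟩

/-- combinatorial part of TUBE -/
theorem comb {C X E : Type*} [Finite E] (adj : C → C → Prop) (hsym : ∀ x y, adj x y → adj y x)
    (a b : E → X) (hab : ∀ e, a e ≠ b e) (K : X → Set C) (R : E → Set C)
    (hKf : ∀ x, (K x).Finite) (hRf : ∀ e, (R e).Finite)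
    (hKne : ∀ x, (K x).Nonempty) (hK : ∀ x, Conn adj (K x)) (hR : ∀ e, Conn adj (R e))
    (hKK : ∀ x y, x ≠ y → Disjoint (K x) (K y))
    (hRK : ∀ e x, x ≠ a e → x ≠ b e → Disjoint (R e) (K x))
    (hRR : ∀ e f, e ≠ f → Disjoint (R e) (R f))
    (hRa : ∀ e, (R e ∩ K (a e)).Nonempty) (hRb : ∀ e, (R e ∩ K (b e)).Nonempty) :
    ∃ D : X → Set C, (∀ x, (D x).Finite) ∧ (∀ x, (D x).Nonempty) ∧ (∀ x, Conn adj (D x)) ∧
      (∀ x y, x ≠ y → Disjoint (D x) (D y)) ∧
      ∀ e, ∃ c ∈ D (a e), ∃ c' ∈ D (b e), adj c c' := by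
  choose c0 hc0R hc0K using hRa
  choose c1 hc1R hc1K using hRb
  have h0 : ∀ e, c0 e ∈ R e \ K (b e) := fun e =>
    ⟨hc0R e, fun h => Set.disjoint_left.1 (hKK _ _ (hab e)) (hc0K e) h⟩
  set T : E → Set C := fun e => Reach adj (R e) (K (b e)) (c0 e) with hT
  have hTs : ∀ e, T e ⊆ R e \ K (b e) := fun e => reach_sub (h0 e)
  have hTc0 : ∀ e, c0 e ∈ T e := fun e => Relation.ReflTransGen.refl
  set D : X → Set C := fun x => K x ∪ ⋃ e ∈ {e | a e = x}, T e with hD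
  have hKD : ∀ x, K x ⊆ D x := fun x => subset_union_left
  have hTD : ∀ e, T e ⊆ D (a e) := fun e c hc =>
    Or.inr (mem_iUnion₂.2 ⟨e, rfl, hc⟩)
  have hmem : ∀ x c, c ∈ D x → c ∈ K x ∨ ∃ e, a e = x ∧ c ∈ T e := by
    intro x c hc
    rcases hc with h | h
    · exact Or.inl h
    · obtain ⟨e, he, hc⟩ := mem_iUnion₂.1 h
      exact Or.inr ⟨e, he, hc⟩
  refine ⟨D, ?_, ?_, ?_, ?_, ?_⟩
  · intro x
    refine (hKf x).union ?_
    exact Set.Finite.biUnion (Set.toFinite _) (fun e _ => (hRf e).subset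
      ((hTs e).trans sdiff_subset))
  · exact fun x => (hKne x).mono (hKD x)
  · intro x
    obtain ⟨s, hs⟩ := hKne x
    have key : ∀ c ∈ D x, Relation.ReflTransGen (Stp adj (D x)) s c := by
      intro c hc
      rcases hmem x c hc with h | ⟨e, rfl, h⟩
      · exact rtg_mono (hKD x) (hK x s hs c h)
      · exact (rtg_mono (hKD _) (hK _ s hs _ (hc0K e))).trans
          (rtg_mono (hTD e) (reach_conn h))
    exact fun c hc c' hc' => (rtg_symm hsym (key c hc)).trans (key c' hc')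
  · intro x y hxy
    rw [Set.disjoint_left]
    intro c hcx hcy
    have hKT : ∀ e z, a e ≠ z → c ∈ T e → c ∈ K z → False := by
      intro e z hez hT1 hK1
      by_cases hb : z = b e
      · subst hb
        exact (hTs e hT1).2 hK1
      · exact Set.disjoint_left.1 (hRK e z (Ne.symm hez) hb) (hTs e hT1).1 hK1
    rcases hmem x c hcx with h | ⟨e, rfl, h⟩
    · rcases hmem y c hcy with h' | ⟨f, rfl, h'⟩
      · exact Set.disjoint_left.1 (hKK x y hxy) h h'
      · exact hKT f x (Ne.symm hxy) h' h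
    · rcases hmem y c hcy with h' | ⟨f, rfl, h'⟩
      · exact hKT e y hxy h h'
      · have hef : e ≠ f := fun h => hxy (h ▸ rfl)
        exact Set.disjoint_left.1 (hRR e f hef) (hTs e h).1 (hTs f h').1
  · intro e
    have key : ∀ c, Relation.ReflTransGen (Stp adj (R e)) (c0 e) c →
        c ∈ T e ∨ ∃ u ∈ T e, ∃ v ∈ K (b e), adj u v := by
      intro c hc
      induction hc with
      | refl => exact Or.inl (hTc0 e)
      | @tail u v _ h2 ih =>
        rcases ih with ih | ih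
        · by_cases hv : v ∈ K (b e)
          · exact Or.inr ⟨u, ih, v, hv, h2.2.2⟩
          · exact Or.inl (Relation.ReflTransGen.tail ih ⟨hTs e ih, ⟨h2.2.1, hv⟩, h2.2.2⟩)
        · exact Or.inr ih
    rcases key (c1 e) (hR e _ (hc0R e) _ (hc1R e)) with h | ⟨u, hu, v, hv, huv⟩
    · exact absurd (hc1K e) (hTs e h).2
    · exact ⟨u, hTD e hu, v, hKD _ hv, huv⟩

/-! ## 2. Cells -/

/-- closed cell of the square grid of mesh `d` -/
def Cell (d : ℝ) (c : ℤ × ℤ) : Set (ℝ × ℝ) :=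
  {z | (c.1 : ℝ) * d ≤ z.1 ∧ z.1 ≤ ((c.1 : ℝ) + 1) * d ∧ (c.2 : ℝ) * d ≤ z.2 ∧
    z.2 ≤ ((c.2 : ℝ) + 1) * d}

/-- the cells that meet `A` -/
def cells (d : ℝ) (A : Set (ℝ × ℝ)) : Set (ℤ × ℤ) := {c | (Cell d c ∩ A).Nonempty}

/-- a common side -/
def Side (c c' : ℤ × ℤ) : Prop :=
  (c.1 = c'.1 ∧ (c.2 = c'.2 + 1 ∨ c'.2 = c.2 + 1)) ∨
    (c.2 = c'.2 ∧ (c.1 = c'.1 + 1 ∨ c'.1 = c.1 + 1))

theorem Side.symm {c c' : ℤ × ℤ} (h : Side c c') : Side c' c := by
  rcases h with ⟨h1, h2⟩ | ⟨h1, h2⟩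
  · exact Or.inl ⟨h1.symm, h2.symm⟩
  · exact Or.inr ⟨h1.symm, h2.symm⟩

/-- CELLS (1): finiteness -/
def StCellsFin : Prop := ∀ (d : ℝ), 0 < d → ∀ A : Set (ℝ × ℝ), Bornology.IsBounded A →
  (cells d A).Finite

/-- CELLS (2): connectedness -/
def StCellsConn : Prop := ∀ (d : ℝ), 0 < d → ∀ A : Set (ℝ × ℝ), IsPreconnected A →
  Bornology.IsBounded A → Conn Side (cells d A)

theorem exists_cell {d : ℝ} (hd : 0 < d) (z : ℝ × ℝ) : ∃ c, z ∈ Cell d c := by
  refine ⟨(⌊z.1 / d⌋, ⌊z.2 / d⌋), ?_, ?_, ?_, ?_⟩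
  · exact (le_div_iff₀ hd).1 (Int.floor_le _)
  · exact (div_le_iff₀ hd).1 (Int.lt_floor_add_one _).le
  · exact (le_div_iff₀ hd).1 (Int.floor_le _)
  · exact (div_le_iff₀ hd).1 (Int.lt_floor_add_one _).le

theorem cell_dist {d : ℝ} {c : ℤ × ℤ} {z w : ℝ × ℝ} (hz : z ∈ Cell d c) (hw : w ∈ Cell d c) :
    dist z w ≤ d := by
  obtain ⟨z1, z2, z3, z4⟩ := hz
  obtain ⟨w1, w2, w3, w4⟩ := hw
  rw [Prod.dist_eq, max_le_iff, Real.dist_eq, Real.dist_eq, abs_le, abs_le]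
  refine ⟨⟨by linarith, by linarith⟩, ⟨by linarith, by linarith⟩⟩

theorem cells_disjoint {d : ℝ} {A B : Set (ℝ × ℝ)} (h : ∀ x ∈ A, ∀ y ∈ B, d < dist x y) :
    Disjoint (cells d A) (cells d B) := by
  rw [Set.disjoint_left]
  rintro c ⟨z, hz, hzA⟩ ⟨w, hw, hwB⟩
  exact absurd (cell_dist hz hw) (not_le.2 (h z hzA w hwB))

theorem cells_inter {d : ℝ} (hd : 0 < d) {A B : Set (ℝ × ℝ)} (h : (A ∩ B).Nonempty) :
    (cells d A ∩ cells d B).Nonempty := by
  obtain ⟨z, hA, hB⟩ := h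
  obtain ⟨c, hc⟩ := exists_cell hd z
  exact ⟨c, ⟨z, hc, hA⟩, ⟨z, hc, hB⟩⟩

theorem cells_nonempty {d : ℝ} (hd : 0 < d) {A : Set (ℝ × ℝ)} (h : A.Nonempty) :
    (cells d A).Nonempty := by
  obtain ⟨z, hA⟩ := h
  obtain ⟨c, hc⟩ := exists_cell hd z
  exact ⟨c, ⟨z, hc, hA⟩⟩

/-! ## 3. Distances -/

theorem exists_pos_le {ι : Type*} [Finite ι] (r : ι → ℝ) (hr : ∀ i, 0 < r i) :
    ∃ δ : ℝ, 0 < δ ∧ ∀ i, δ ≤ r i := by
  rcases isEmpty_or_nonempty ι with h | h
  · exact ⟨1, one_pos, fun i => (h.false i).elim⟩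
  · obtain ⟨i, hi⟩ := Finite.exists_min r
    exact ⟨r i, hr i, hi⟩

theorem compact_sep {A B : Set (ℝ × ℝ)} (hA : IsCompact A) (hB : IsCompact B)
    (h : Disjoint A B) : ∃ r : ℝ, 0 < r ∧ ∀ x ∈ A, ∀ y ∈ B, r < dist x y := by
  obtain ⟨r, hr, h2⟩ := Metric.exists_pos_forall_lt_edist hA hB.isClosed h
  refine ⟨r, hr, fun x hx y hy => ?_⟩
  have := h2 x hx y hy
  rw [edist_dist] at this
  have h3 : ((r : NNReal) : ENNReal) = ENNReal.ofReal (r : ℝ) := by
    simp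
  rw [h3] at this
  exact (ENNReal.ofReal_lt_ofReal_iff_of_nonneg r.2).1 this

/-- one distance for finitely many pairs of disjoint compact sets -/
theorem fam_sep {ι : Type*} [Finite ι] (A B : ι → Set (ℝ × ℝ)) (hA : ∀ i, IsCompact (A i))
    (hB : ∀ i, IsCompact (B i)) :
    ∃ δ : ℝ, 0 < δ ∧ ∀ i, Disjoint (A i) (B i) → ∀ x ∈ A i, ∀ y ∈ B i, δ < dist x y := by
  have h : ∀ i, ∃ r : ℝ, 0 < r ∧ (Disjoint (A i) (B i) → ∀ x ∈ A i, ∀ y ∈ B i, r < dist x y) := by
    intro i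
    by_cases hd : Disjoint (A i) (B i)
    · obtain ⟨r, hr, h⟩ := compact_sep (hA i) (hB i) hd
      exact ⟨r, hr, fun _ => h⟩
    · exact ⟨1, one_pos, fun h => absurd h hd⟩
  choose r hr hr2 using h
  obtain ⟨δ, hδ, hδ2⟩ := exists_pos_le r hr
  exact ⟨δ, hδ, fun i hd x hx y hy => lt_of_le_of_lt (hδ2 i) (hr2 i hd x hx y hy)⟩

/-! ## 4. TUBE -/

/-- TUBE -/
theorem tube (hfin : StCellsFin) (hconn : StCellsConn) {X E : Type*} [Finite X] [Finite E]
    (pt : X → ℝ × ℝ) (hpt : Function.Injective pt) (a b : E → X) (hab : ∀ e, a e ≠ b e)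
    (g : E → ℝ → ℝ × ℝ) (hg : ∀ e, ContinuousOn (g e) (Icc 0 1))
    (hg0 : ∀ e, g e 0 = pt (a e)) (hg1 : ∀ e, g e 1 = pt (b e))
    (hgx : ∀ e x, ∀ t ∈ Icc (0 : ℝ) 1, g e t = pt x → t = 0 ∨ t = 1)
    (hgg : ∀ e f, e ≠ f → ∀ s ∈ Icc (0 : ℝ) 1, ∀ t ∈ Icc (0 : ℝ) 1, g e s = g f t →
      s = 0 ∨ s = 1) :
    ∃ D : X → Set (ℤ × ℤ), (∀ x, (D x).Finite) ∧ (∀ x, (D x).Nonempty) ∧
      (∀ x, Conn Side (D x)) ∧ (∀ x y, x ≠ y → Disjoint (D x) (D y)) ∧
      ∀ e, ∃ c ∈ D (a e), ∃ c' ∈ D (b e), Side c c' := by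
  classical
  have harc : ∀ e, IsCompact (g e '' Icc (0 : ℝ) 1) := fun e => isCompact_Icc.image_of_continuousOn (hg e)
  -- `pt x` is not on the arc `e` unless it is an end
  have hoff : ∀ e x, x ≠ a e → x ≠ b e → pt x ∉ g e '' Icc (0 : ℝ) 1 := by
    rintro e x hxa hxb ⟨t, ht, hgt⟩
    rcases hgx e x t ht hgt with h | h
    · subst h
      rw [hg0] at hgt
      exact hxa (hpt hgt).symm
    · subst h
      rw [hg1] at hgt
      exact hxb (hpt hgt).symm
  -- the radius of the balls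
  obtain ⟨ε1, hε1, hε1'⟩ := fam_sep (ι := X × X) (fun p => {pt p.1}) (fun p => {pt p.2})
    (fun _ => isCompact_singleton) (fun _ => isCompact_singleton)
  obtain ⟨ε2, hε2, hε2'⟩ := fam_sep (ι := X × E) (fun p => {pt p.1})
    (fun p => g p.2 '' Icc (0 : ℝ) 1) (fun _ => isCompact_singleton) (fun p => harc p.2)
  set ε : ℝ := min (ε1 / 2) ε2 with hε
  have hε0 : 0 < ε := lt_min (by linarith) hε2
  have hball : ∀ x y, x ≠ y → Disjoint (Metric.closedBall (pt x) ε) (Metric.closedBall (pt y) ε) := by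
    intro x y hxy
    rw [Set.disjoint_left]
    intro z hz1 hz2
    rw [Metric.mem_closedBall] at hz1 hz2
    have h1 := hε1' (x, y) (by
      rw [Set.disjoint_singleton]
      exact fun h => hxy (hpt h)) (pt x) rfl (pt y) rfl
    have h2 : dist (pt x) (pt y) ≤ dist (pt x) z + dist z (pt y) := dist_triangle _ _ _
    rw [dist_comm (pt x) z] at h2
    have h3 : ε ≤ ε1 / 2 := min_le_left _ _
    linarith
  have hballarc : ∀ e x, x ≠ a e → x ≠ b e →
      Disjoint (g e '' Icc (0 : ℝ) 1) (Metric.closedBall (pt x) ε) := by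
    intro e x hxa hxb
    rw [Set.disjoint_left]
    intro z hz1 hz2
    rw [Metric.mem_closedBall] at hz2
    have h1 := hε2' (x, e) (by
      rw [Set.disjoint_singleton_left]
      exact hoff e x hxa hxb) (pt x) rfl z hz1
    have h3 : ε ≤ ε2 := min_le_right _ _
    rw [dist_comm] at hz2
    linarith
  -- the parameters
  have hpar : ∀ e, ∃ s t : ℝ, 0 < s ∧ s ≤ t ∧ t < 1 ∧ g e s ∈ Metric.closedBall (pt (a e)) ε ∧
      g e t ∈ Metric.closedBall (pt (b e)) ε := by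
    intro e
    have c0 := (hg e) 0 ⟨le_rfl, zero_le_one⟩
    have c1 := (hg e) 1 ⟨zero_le_one, le_rfl⟩
    rw [Metric.continuousWithinAt_iff] at c0 c1
    obtain ⟨d0, hd0, hd0'⟩ := c0 ε hε0
    obtain ⟨d1, hd1, hd1'⟩ := c1 ε hε0
    have hs0 : 0 < min (d0 / 2) (1 / 2) := lt_min (by linarith) (by norm_num)
    have hs1 : 0 < min (d1 / 2) (1 / 2) := lt_min (by linarith) (by norm_num)
    have hs0' : min (d0 / 2) (1 / 2) ≤ 1 / 2 := min_le_right _ _
    have hs1' : min (d1 / 2) (1 / 2) ≤ 1 / 2 := min_le_right _ _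
    refine ⟨min (d0 / 2) (1 / 2), 1 - min (d1 / 2) (1 / 2), hs0, by linarith, by linarith, ?_, ?_⟩
    · rw [Metric.mem_closedBall, ← hg0 e]
      refine (hd0' ⟨hs0.le, by linarith⟩ ?_).le
      rw [Real.dist_eq, sub_zero, abs_of_pos hs0]
      exact lt_of_le_of_lt (min_le_left _ _) (by linarith)
    · rw [Metric.mem_closedBall, ← hg1 e]
      refine (hd1' ⟨by linarith, by linarith⟩ ?_).le
      rw [Real.dist_eq, show 1 - min (d1 / 2) (1 / 2) - 1 = - min (d1 / 2) (1 / 2) by ring,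
        abs_neg, abs_of_pos hs1]
      exact lt_of_le_of_lt (min_le_left _ _) (by linarith)
  choose s t hs0 hst ht1 hsa htb using hpar
  set P : E → Set (ℝ × ℝ) := fun e => g e '' Icc (s e) (t e) with hP
  have hsub : ∀ e, Icc (s e) (t e) ⊆ Icc (0 : ℝ) 1 := fun e =>
    Icc_subset_Icc (hs0 e).le (ht1 e).le
  have hPc : ∀ e, IsCompact (P e) := fun e =>
    isCompact_Icc.image_of_continuousOn ((hg e).mono (hsub e))
  have hPconn : ∀ e, IsPreconnected (P e) := fun e =>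
    isPreconnected_Icc.image _ ((hg e).mono (hsub e))
  have hPP : ∀ e f, e ≠ f → Disjoint (P e) (P f) := by
    intro e f hef
    rw [Set.disjoint_left]
    rintro z ⟨u, hu, rfl⟩ ⟨v, hv, hv2⟩
    rcases hgg e f hef u (hsub e hu) v (hsub f hv) hv2.symm with h | h
    · have := hs0 e
      have := hu.1
      linarith
    · have := ht1 e
      have := hu.2
      linarith
  have hPball : ∀ e x, x ≠ a e → x ≠ b e → Disjoint (P e) (Metric.closedBall (pt x) ε) :=
    fun e x h1 h2 => (hballarc e x h1 h2).mono_left (image_mono (hsub e))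
  have hBc : ∀ x, IsCompact (Metric.closedBall (pt x) ε) := fun x => isCompact_closedBall _ _
  -- the mesh
  obtain ⟨δ1, hδ1, hδ1'⟩ := fam_sep (ι := X × X) (fun p => Metric.closedBall (pt p.1) ε)
    (fun p => Metric.closedBall (pt p.2) ε) (fun p => hBc p.1) (fun p => hBc p.2)
  obtain ⟨δ2, hδ2, hδ2'⟩ := fam_sep (ι := E × X) (fun p => P p.1)
    (fun p => Metric.closedBall (pt p.2) ε) (fun p => hPc p.1) (fun p => hBc p.2)
  obtain ⟨δ3, hδ3, hδ3'⟩ := fam_sep (ι := E × E) (fun p => P p.1) (fun p => P p.2)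
    (fun p => hPc p.1) (fun p => hPc p.2)
  set δ : ℝ := min δ1 (min δ2 δ3) with hδ
  have hδ0 : 0 < δ := lt_min hδ1 (lt_min hδ2 hδ3)
  have hl1 : δ ≤ δ1 := min_le_left _ _
  have hl2 : δ ≤ δ2 := (min_le_right _ _).trans (min_le_left _ _)
  have hl3 : δ ≤ δ3 := (min_le_right _ _).trans (min_le_right _ _)
  refine comb Side (fun _ _ => Side.symm) a b hab (fun x => cells δ (Metric.closedBall (pt x) ε))
    (fun e => cells δ (P e)) ?_ ?_ ?_ ?_ ?_ ?_ ?_ ?_ ?_ ?_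
  · exact fun x => hfin δ hδ0 _ (hBc x).isBounded
  · exact fun e => hfin δ hδ0 _ (hPc e).isBounded
  · exact fun x => cells_nonempty hδ0 ⟨pt x, Metric.mem_closedBall_self hε0.le⟩
  · exact fun x => hconn δ hδ0 _ (convex_closedBall _ _).isPreconnected (hBc x).isBounded
  · exact fun e => hconn δ hδ0 _ (hPconn e) (hPc e).isBounded
  · exact fun x y hxy => cells_disjoint fun z hz w hw =>
      lt_of_le_of_lt hl1 (hδ1' (x, y) (hball x y hxy) z hz w hw)
  · exact fun e x h1 h2 => cells_disjoint fun z hz w hw =>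
      lt_of_le_of_lt hl2 (hδ2' (e, x) (hPball e x h1 h2) z hz w hw)
  · exact fun e f hef => cells_disjoint fun z hz w hw =>
      lt_of_le_of_lt hl3 (hδ3' (e, f) (hPP e f hef) z hz w hw)
  · exact fun e => cells_inter hδ0 ⟨g e (s e), ⟨s e, ⟨le_rfl, hst e⟩, rfl⟩, hsa e⟩
  · exact fun e => cells_inter hδ0 ⟨g e (t e), ⟨t e, ⟨hst e, le_rfl⟩, rfl⟩, htb e⟩

end Pool.Agent.Lib.MP_1fca17_co.T56
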